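import Mathlib

/-!
# Broken geodesics in a Euclidean simplicial complex: definitions and basic lemmas
-/

set_option autoImplicit false

open Set Filter Topology

namespace Pool.Agent.BP

variable {V : Type}

/-- The bilinear form of the squared lengths `lam`, restricted to the finite set `s`. -/
noncomputable def bil (lam : V → V → ℝ) (s : Finset V) (a b : V → ℝ) : ℝ :=
  -(1 / 2) * ∑ u ∈ s, ∑ v ∈ s, a u * b v * lam u v

/-- the function vanishes outside `s` -/
def SuppIn (a : V → ℝ) (s : Finset V) : Prop := ∀ v, v ∉ s → a v = 0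

theorem SuppIn.mono {a : V → ℝ} {s t : Finset V} (h : SuppIn a s) (hst : s ⊆ t) : SuppIn a t :=
  fun v hv => h v (fun hv' => hv (hst hv'))

theorem SuppIn.add {a b : V → ℝ} {s : Finset V} (ha : SuppIn a s) (hb : SuppIn b s) : SuppIn (a + b) s :=
  fun v hv => by simp [ha v hv, hb v hv]

theorem SuppIn.sub {a b : V → ℝ} {s : Finset V} (ha : SuppIn a s) (hb : SuppIn b s) : SuppIn (a - b) s :=
  fun v hv => by simp [ha v hv, hb v hv]

theorem SuppIn.smul {a : V → ℝ} {s : Finset V} (r : ℝ) (ha : SuppIn a s) : SuppIn (r • a) s :=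
  fun v hv => by simp [ha v hv]

theorem SuppIn.sum_eq {a : V → ℝ} {s t : Finset V} (h : SuppIn a s) (hst : s ⊆ t) :
    ∑ v ∈ t, a v = ∑ v ∈ s, a v :=
  (Finset.sum_subset hst (fun v _ hv => h v hv)).symm

theorem bil_add_left (lam : V → V → ℝ) (s : Finset V) (a a' b : V → ℝ) :
    bil lam s (a + a') b = bil lam s a b + bil lam s a' b := by
  unfold bil
  rw [← mul_add, ← Finset.sum_add_distrib]
  congr 1
  apply Finset.sum_congr rfl
  intro u _
  rw [← Finset.sum_add_distrib]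
  apply Finset.sum_congr rfl
  intro v _
  simp only [Pi.add_apply]
  ring

theorem bil_smul_left (lam : V → V → ℝ) (s : Finset V) (r : ℝ) (a b : V → ℝ) :
    bil lam s (r • a) b = r * bil lam s a b := by
  unfold bil
  rw [mul_left_comm]
  congr 1
  rw [Finset.mul_sum]
  apply Finset.sum_congr rfl
  intro u _
  rw [Finset.mul_sum]
  apply Finset.sum_congr rfl
  intro v _
  simp only [Pi.smul_apply, smul_eq_mul]
  ring

theorem bil_symm (lam : V → V → ℝ) (h : ∀ u v, lam u v = lam v u) (s : Finset V) (a b : V → ℝ) :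
    bil lam s a b = bil lam s b a := by
  unfold bil
  congr 1
  rw [Finset.sum_comm]
  apply Finset.sum_congr rfl
  intro u _
  apply Finset.sum_congr rfl
  intro v _
  rw [h v u]
  ring

theorem bil_add_right (lam : V → V → ℝ) (s : Finset V) (a b b' : V → ℝ) :
    bil lam s a (b + b') = bil lam s a b + bil lam s a b' := by
  unfold bil
  rw [← mul_add, ← Finset.sum_add_distrib]
  congr 1
  apply Finset.sum_congr rfl
  intro u _
  rw [← Finset.sum_add_distrib]
  apply Finset.sum_congr rfl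
  intro v _
  simp only [Pi.add_apply]
  ring

theorem bil_smul_right (lam : V → V → ℝ) (s : Finset V) (r : ℝ) (a b : V → ℝ) :
    bil lam s a (r • b) = r * bil lam s a b := by
  unfold bil
  rw [mul_left_comm]
  congr 1
  rw [Finset.mul_sum]
  apply Finset.sum_congr rfl
  intro u _
  rw [Finset.mul_sum]
  apply Finset.sum_congr rfl
  intro v _
  simp only [Pi.smul_apply, smul_eq_mul]
  ring

theorem bil_neg_left (lam : V → V → ℝ) (s : Finset V) (a b : V → ℝ) :
    bil lam s (-a) b = - bil lam s a b := by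
  have := bil_smul_left lam s (-1) a b
  simpa using this

theorem bil_neg_right (lam : V → V → ℝ) (s : Finset V) (a b : V → ℝ) :
    bil lam s a (-b) = - bil lam s a b := by
  have := bil_smul_right lam s (-1) a b
  simpa using this

theorem bil_sub_left (lam : V → V → ℝ) (s : Finset V) (a a' b : V → ℝ) :
    bil lam s (a - a') b = bil lam s a b - bil lam s a' b := by
  rw [sub_eq_add_neg, bil_add_left, bil_neg_left, sub_eq_add_neg]

theorem bil_sub_right (lam : V → V → ℝ) (s : Finset V) (a b b' : V → ℝ) :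
    bil lam s a (b - b') = bil lam s a b - bil lam s a b' := by
  rw [sub_eq_add_neg, bil_add_right, bil_neg_right, sub_eq_add_neg]

/-- the form does not depend on the finite set -/
theorem bil_subset (lam : V → V → ℝ) {s t : Finset V} (hst : s ⊆ t) (a b : V → ℝ) (ha : SuppIn a s)
    (hb : SuppIn b s) : bil lam t a b = bil lam s a b := by
  unfold bil
  congr 1
  symm
  rw [← Finset.sum_subset hst]
  · apply Finset.sum_congr rfl
    intro u _
    exact Finset.sum_subset hst (fun v _ hv => by simp [hb v hv])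
  · intro u _ hu
    apply Finset.sum_eq_zero
    intro v _
    simp [ha u hu]

/-- A family of faces with squared lengths, uniformly nondegenerate. -/
structure IsShapes (faces : Set (Finset V)) (lam : V → V → ℝ) (n : ℕ) (c1 C1 : ℝ) : Prop where
  c1_pos : 0 < c1
  C1_pos : 0 < C1
  symm : ∀ u v, lam u v = lam v u
  card_le : ∀ s ∈ faces, s.card ≤ n + 1
  down : ∀ s ∈ faces, ∀ t ⊆ s, t.Nonempty → t ∈ faces
  lower : ∀ s ∈ faces, ∀ a : V → ℝ, SuppIn a s → ∑ v ∈ s, a v = 0 →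
    c1 * ∑ v ∈ s, a v ^ 2 ≤ bil lam s a a
  upper : ∀ s ∈ faces, ∀ a : V → ℝ, SuppIn a s → ∑ v ∈ s, a v = 0 →
    bil lam s a a ≤ C1 * ∑ v ∈ s, a v ^ 2

/-- The coordinates `c` of a geodesic with unit speed on `[a, b]`. -/
structure Broken (faces : Set (Finset V)) (lam : V → V → ℝ) (c : ℝ → V → ℝ) (a b : ℝ) : Prop where
  nonneg : ∀ t ∈ Icc a b, ∀ v, 0 ≤ c t v
  carrier : ∀ t ∈ Icc a b, ∃ s ∈ faces, (∀ v, 0 < c t v ↔ v ∈ s) ∧ ∑ v ∈ s, c t v = 1
  straight : ∀ x ∈ Icc a b, ∀ y ∈ Icc a b, x < y → ∀ s ∈ faces, SuppIn (c x) s → SuppIn (c y) s →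
    (∀ t ∈ Icc x y, ∀ v, c t v = c x v + (t - x) / (y - x) * (c y v - c x v)) ∧
      bil lam s (c y - c x) (c y - c x) = (y - x) ^ 2
  right : ∀ t ∈ Ico a b, ∃ y ∈ Ioc t b, ∃ s ∈ faces, SuppIn (c t) s ∧ SuppIn (c y) s
  left : ∀ t ∈ Ioc a b, ∃ x ∈ Ico a t, ∃ s ∈ faces, SuppIn (c x) s ∧ SuppIn (c t) s
  cons : ∀ x ∈ Icc a b, ∀ t ∈ Icc a b, ∀ y ∈ Icc a b, x < t → t < y → ∀ s ∈ faces, ∀ s' ∈ faces,
    SuppIn (c x) s → SuppIn (c t) s → SuppIn (c t) s' → SuppIn (c y) s' →
    ∀ w : V → ℝ, (∀ v, c t v = 0 → w v = 0) → ∑ v ∈ s, w v = 0 →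
    bil lam s (c t - c x) w * (y - t) = bil lam s' (c y - c t) w * (t - x)

/-- at most `k` pieces, each of them in one closed simplex -/
def Pieces (faces : Set (Finset V)) (c : ℝ → V → ℝ) (k : ℕ) (a b : ℝ) : Prop :=
  ∃ t : ℕ → ℝ, t 0 = a ∧ t k = b ∧ (∀ i < k, t i ≤ t (i + 1)) ∧
    ∀ i < k, ∃ s ∈ faces, SuppIn (c (t i)) s ∧ SuppIn (c (t (i + 1))) s

theorem Pieces.trans {faces : Set (Finset V)} {c : ℝ → V → ℝ} {k l : ℕ} {a b d : ℝ}
    (h1 : Pieces faces c k a b) (h2 : Pieces faces c l b d) : Pieces faces c (k + l) a d := by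
  obtain ⟨t, t0, tk, tm, tp⟩ := h1
  obtain ⟨u, u0, ul, um, up⟩ := h2
  refine ⟨fun i => if i ≤ k then t i else u (i - k), ?_, ?_, ?_, ?_⟩
  · simp [t0]
  · by_cases hl : l = 0
    · subst hl
      simp only [Nat.add_zero, le_refl, if_true]
      rw [tk, ← u0, ul]
    · have : ¬ k + l ≤ k := by omega
      simp only [this, if_false, Nat.add_sub_cancel_left, ul]
  · intro i hi
    rcases Nat.lt_trichotomy i k with h | h | h
    · have h1 : i ≤ k := h.le
      have h2 : i + 1 ≤ k := h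
      simp only [h1, h2, if_true]
      exact tm i h
    · subst h
      have h2 : ¬ i + 1 ≤ i := by omega
      simp only [le_refl, if_true, h2, if_false, Nat.add_sub_cancel_left]
      rw [tk, ← u0]
      exact um 0 (by omega)
    · have h1 : ¬ i ≤ k := by omega
      have h2 : ¬ i + 1 ≤ k := by omega
      have h3 : i + 1 - k = (i - k) + 1 := by omega
      simp only [h1, h2, if_false, h3]
      exact um (i - k) (by omega)
  · intro i hi
    rcases Nat.lt_trichotomy i k with h | h | h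
    · have h1 : i ≤ k := h.le
      have h2 : i + 1 ≤ k := h
      simp only [h1, h2, if_true]
      exact tp i h
    · subst h
      have h2 : ¬ i + 1 ≤ i := by omega
      simp only [le_refl, if_true, h2, if_false, Nat.add_sub_cancel_left]
      rw [tk, ← u0]
      exact up 0 (by omega)
    · have h1 : ¬ i ≤ k := by omega
      have h2 : ¬ i + 1 ≤ k := by omega
      have h3 : i + 1 - k = (i - k) + 1 := by omega
      simp only [h1, h2, if_false, h3]
      exact up (i - k) (by omega)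

theorem Pieces.refl {faces : Set (Finset V)} {c : ℝ → V → ℝ} (a : ℝ) : Pieces faces c 0 a a :=
  ⟨fun _ => a, rfl, rfl, fun i hi => absurd hi (Nat.not_lt_zero i), fun i hi => absurd hi (Nat.not_lt_zero i)⟩

theorem Pieces.mono {faces : Set (Finset V)} {c : ℝ → V → ℝ} {k l : ℕ} {a b : ℝ}
    (h : Pieces faces c k a b) (hb : ∃ s ∈ faces, SuppIn (c b) s) (hkl : k ≤ l) : Pieces faces c l a b := by
  obtain ⟨s, hs, hsb⟩ := hb
  obtain ⟨m, rfl⟩ := Nat.exists_eq_add_of_le hkl
  refine h.trans ⟨fun _ => b, rfl, rfl, fun _ _ => le_rfl, fun _ _ => ⟨s, hs, hsb, hsb⟩⟩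

namespace Broken

variable {faces : Set (Finset V)} {lam : V → V → ℝ} {c : ℝ → V → ℝ} {a b : ℝ}

theorem exists_face (h : Broken faces lam c a b) {t : ℝ} (ht : t ∈ Icc a b) :
    ∃ s ∈ faces, SuppIn (c t) s := by
  obtain ⟨s, hs, h1, _⟩ := h.carrier t ht
  refine ⟨s, hs, fun v hv => ?_⟩
  by_contra hne
  exact hv ((h1 v).mp (lt_of_le_of_ne (h.nonneg t ht v) (Ne.symm hne)))

theorem suppIn_of_mem (h : Broken faces lam c a b) {x y : ℝ} (hx : x ∈ Icc a b) (hy : y ∈ Icc a b)
    (hxy : x < y) {s : Finset V} (hs : s ∈ faces) (h1 : SuppIn (c x) s) (h2 : SuppIn (c y) s) {t : ℝ}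
    (ht : t ∈ Icc x y) : SuppIn (c t) s := by
  intro v hv
  rw [(h.straight x hx y hy hxy s hs h1 h2).1 t ht v, h1 v hv, h2 v hv]
  ring

theorem sum_eq_one (h : Broken faces lam c a b) {t : ℝ} (ht : t ∈ Icc a b) {s : Finset V}
    (hs : SuppIn (c t) s) : ∑ v ∈ s, c t v = 1 := by
  obtain ⟨s', _, h1, h2⟩ := h.carrier t ht
  rw [← h2]
  symm
  have hsub : s' ⊆ s := by
    intro v hv
    by_contra hv'
    have := (h1 v).mpr hv
    rw [hs v hv'] at this
    exact lt_irrefl _ this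
  apply Finset.sum_subset hsub
  intro v _ hv
  by_contra hne
  exact hv ((h1 v).mp (lt_of_le_of_ne (h.nonneg t ht v) (Ne.symm hne)))

theorem subInterval (h : Broken faces lam c a b) {a' b' : ℝ} (ha : a ≤ a') (hb : b' ≤ b) :
    Broken faces lam c a' b' := by
  have hsub : ∀ t, t ∈ Icc a' b' → t ∈ Icc a b := fun t ht => ⟨le_trans ha ht.1, le_trans ht.2 hb⟩
  refine ⟨fun t ht => h.nonneg t (hsub t ht), fun t ht => h.carrier t (hsub t ht),
    fun x hx y hy => h.straight x (hsub x hx) y (hsub y hy), ?_, ?_,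
    fun x hx t ht y hy => h.cons x (hsub x hx) t (hsub t ht) y (hsub y hy)⟩
  · intro t ht
    obtain ⟨y, hy, s, hs, h1, h2⟩ := h.right t ⟨le_trans ha ht.1, lt_of_lt_of_le ht.2 hb⟩
    refine ⟨min y b', ⟨lt_min hy.1 ht.2, min_le_right _ _⟩, s, hs, h1, ?_⟩
    exact h.suppIn_of_mem ⟨le_trans ha ht.1, le_trans ht.2.le hb⟩
      ⟨le_trans (le_trans ha ht.1) hy.1.le, hy.2⟩ hy.1 hs h1 h2 ⟨(lt_min hy.1 ht.2).le, min_le_left _ _⟩
  · intro t ht
    obtain ⟨x, hx, s, hs, h1, h2⟩ := h.left t ⟨lt_of_le_of_lt ha ht.1, le_trans ht.2 hb⟩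
    refine ⟨max x a', ⟨le_max_right _ _, max_lt hx.2 ht.1⟩, s, hs, ?_, h2⟩
    exact h.suppIn_of_mem ⟨hx.1, le_trans hx.2.le (le_trans ht.2 hb)⟩
      ⟨le_trans ha ht.1.le, le_trans ht.2 hb⟩ hx.2 hs h1 h2 ⟨le_max_left _ _, (max_lt hx.2 ht.1).le⟩

end Broken

end Pool.Agent.BP
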