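import Pool.Agent.Lib.MP_98022b_b4.Basic
import Pool.Agent.Lib.MP_98022b_td.EucDefs
import Pool.Agent.Lib.MP_98022b_td.CatCon

/-!
# The bridge: the coordinates of a geodesic of a CAT(0) complex are a broken geodesic
-/

set_option autoImplicit false

open Set Filter Topology

namespace Pool.Agent.BP

open Pool.Agent.TD

variable {X V : Type} [MetricSpace X]

theorem sum_co (K : EComplex X V) {x : X} {s : Finset V} (hx : SuppIn (K.co x) s) :
    ∑ v ∈ s, K.co x v = 1 := by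
  obtain ⟨s', _, h1, h2⟩ := K.carrier x
  rw [← h2]
  symm
  have hsub : s' ⊆ s := by
    intro v hv
    by_contra hv'
    have := (h1 v).mpr hv
    rw [hx v hv'] at this
    exact lt_irrefl _ this
  apply Finset.sum_subset hsub
  intro v _ hv
  by_contra hne
  exact hv ((h1 v).mp (lt_of_le_of_ne (K.co_nonneg x v) (Ne.symm hne)))

theorem dist_sq (K : EComplex X V) {s : Finset V} (hs : s ∈ K.faces) {x y : X} (hx : SuppIn (K.co x) s)
    (hy : SuppIn (K.co y) s) :
    dist x y ^ 2 = bil (fun u v => K.len u v ^ 2) s (K.co y - K.co x) (K.co y - K.co x) := by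
  rw [K.euclid s hs x y hx hy]
  unfold bil
  congr 1
  apply Finset.sum_congr rfl
  intro u _
  apply Finset.sum_congr rfl
  intro v _
  simp only [Pi.sub_apply, EComplex.len]
  ring

/-- BR2 -/
theorem straight (hX : IsCAT0 X) (K : EComplex X V) {γ : ℝ → X} {T : ℝ} (hγ : IsGeod γ T)
    {x y : ℝ} (hx : x ∈ Icc 0 T) (hy : y ∈ Icc 0 T) (hxy : x < y) {s : Finset V} (hs : s ∈ K.faces)
    (h1 : SuppIn (K.co (γ x)) s) (h2 : SuppIn (K.co (γ y)) s) {t : ℝ} (ht : t ∈ Icc x y) (v : V) :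
    K.co (γ t) v = K.co (γ x) v + (t - x) / (y - x) * (K.co (γ y) v - K.co (γ x) v) := by
  obtain ⟨θ, hθ⟩ : ∃ θ, θ = (t - x) / (y - x) := ⟨_, rfl⟩
  have hyx : 0 < y - x := by linarith
  have hθ0 : 0 ≤ θ := by rw [hθ]; exact div_nonneg (by linarith [ht.1]) hyx.le
  have hθ1 : θ ≤ 1 := by rw [hθ, div_le_one hyx]; linarith [ht.2]
  obtain ⟨a, ha⟩ : ∃ a : V → ℝ, a = K.co (γ x) + θ • (K.co (γ y) - K.co (γ x)) := ⟨_, rfl⟩
  have hav : ∀ v, a v = (1 - θ) * K.co (γ x) v + θ * K.co (γ y) v := by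
    intro v
    rw [ha]
    simp only [Pi.add_apply, Pi.smul_apply, Pi.sub_apply, smul_eq_mul]
    ring
  have hsupp : SuppIn a s := by
    intro v hv
    rw [hav v, h1 v hv, h2 v hv]
    ring
  have hnn : ∀ v, 0 ≤ a v := by
    intro v
    rw [hav v]
    exact add_nonneg (mul_nonneg (by linarith) (K.co_nonneg _ _)) (mul_nonneg hθ0 (K.co_nonneg _ _))
  have hsum : ∑ v ∈ s, a v = 1 := by
    simp_rw [hav]
    rw [Finset.sum_add_distrib, ← Finset.mul_sum, ← Finset.mul_sum, sum_co K h1, sum_co K h2]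
    ring
  obtain ⟨z, hz⟩ := K.exists_pt s hs a hnn hsupp hsum
  have hzs : SuppIn (K.co z) s := by rw [hz]; exact hsupp
  have hd : dist (γ x) (γ y) = y - x := by
    rw [hγ x hx y hy, abs_sub_comm, abs_of_pos hyx]
  have hd2 := dist_sq K hs h1 h2
  have e1 : dist (γ x) z ^ 2 = (θ * dist (γ x) (γ y)) ^ 2 := by
    rw [dist_sq K hs h1 hzs, mul_pow, hd2, hz, ha, add_sub_cancel_left, bil_smul_left, bil_smul_right]
    ring
  have e2 : dist z (γ y) ^ 2 = ((1 - θ) * dist (γ x) (γ y)) ^ 2 := by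
    have : K.co (γ y) - K.co z = (1 - θ) • (K.co (γ y) - K.co (γ x)) := by
      rw [hz]
      funext v
      simp only [Pi.sub_apply, Pi.smul_apply, smul_eq_mul]
      rw [hav v]
      ring
    rw [dist_sq K hs hzs h2, mul_pow, hd2, this, bil_smul_left, bil_smul_right]
    ring
  have f1 : dist (γ x) z = θ * dist (γ x) (γ y) :=
    (sq_eq_sq₀ dist_nonneg (mul_nonneg hθ0 dist_nonneg)).mp e1
  have f2 : dist z (γ y) = (1 - θ) * dist (γ x) (γ y) :=
    (sq_eq_sq₀ dist_nonneg (mul_nonneg (by linarith) dist_nonneg)).mp e2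
  have htT : t ∈ Icc 0 T := ⟨le_trans hx.1 ht.1, le_trans ht.2 hy.2⟩
  have f3 : dist (γ x) (γ t) = θ * dist (γ x) (γ y) := by
    rw [hγ x hx t htT, abs_sub_comm, abs_of_nonneg (by linarith [ht.1]), hd, hθ]
    field_simp
  have f4 : dist (γ t) (γ y) = (1 - θ) * dist (γ x) (γ y) := by
    rw [hγ t htT y hy, abs_sub_comm, abs_of_nonneg (by linarith [ht.2]), hd, hθ]
    field_simp
    ring
  have hzt : z = γ t := eq_of_dist_le hX hθ0 hθ1 f1.le f2.le f3.le f4.le
  rw [← hzt, hz, hav v, ← hθ]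
  ring

theorem bil_sub_self (lam : V → V → ℝ) (h : ∀ u v, lam u v = lam v u) (s : Finset V) (a w : V → ℝ) (η : ℝ) :
    bil lam s (a - η • w) (a - η • w) = bil lam s a a - 2 * η * bil lam s a w + η ^ 2 * bil lam s w w := by
  rw [bil_sub_left, bil_sub_right, bil_sub_right, bil_smul_left, bil_smul_left, bil_smul_right,
    bil_smul_right, bil_symm lam h s w a]
  ring

theorem dist_le_of_sq {D z d : ℝ} (hD : 0 < D) (h : d ^ 2 = D ^ 2 + z) : d ≤ D + z / (2 * D) := by
  have h1 : 0 ≤ D + z / (2 * D) := by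
    have : -(D ^ 2) ≤ z := by nlinarith [sq_nonneg d]
    have h2 : -(D ^ 2) / (2 * D) ≤ z / (2 * D) := div_le_div_of_nonneg_right this (by positivity)
    have h3 : -(D ^ 2) / (2 * D) = -(D / 2) := by field_simp
    rw [h3] at h2
    linarith
  apply le_of_sq_le_sq _ h1
  rw [h]
  have h4 : (D + z / (2 * D)) ^ 2 = D ^ 2 + z + (z / (2 * D)) ^ 2 := by
    field_simp
    ring
  rw [h4]
  nlinarith [sq_nonneg (z / (2 * D))]

theorem eq_zero_of_quad {A B η₀ : ℝ} (h0 : 0 < η₀) (h : ∀ η, |η| ≤ η₀ → 0 ≤ η * A + η ^ 2 * B) : A = 0 := by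
  by_contra hA
  have hA' : 0 < |A| := abs_pos.mpr hA
  obtain ⟨m, hm⟩ : ∃ m, m = min η₀ (|A| / (2 * (|B| + 1))) := ⟨_, rfl⟩
  have hB : 0 < 2 * (|B| + 1) := by positivity
  have hm0 : 0 < m := by rw [hm]; exact lt_min h0 (div_pos hA' hB)
  have hm1 : m ≤ η₀ := by rw [hm]; exact min_le_left _ _
  have hm2 : m * (2 * (|B| + 1)) ≤ |A| := by
    rw [← le_div_iff₀ hB, hm]
    exact min_le_right _ _
  have hBB : B ≤ |B| := le_abs_self B
  rcases lt_or_gt_of_ne hA with hneg | hpos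
  · have h1 := h m (by rw [abs_of_pos hm0]; exact hm1)
    rw [abs_of_neg hneg] at hm2
    nlinarith [mul_le_mul_of_nonneg_left hBB (sq_nonneg m), mul_pos hm0 hm0, mul_nonneg hm0.le (abs_nonneg B)]
  · have h1 := h (-m) (by rw [abs_neg, abs_of_pos hm0]; exact hm1)
    rw [abs_of_pos hpos] at hm2
    nlinarith [mul_le_mul_of_nonneg_left hBB (sq_nonneg m), mul_pos hm0 hm0, mul_nonneg hm0.le (abs_nonneg B)]

/-- BR3 -/
theorem first_variation (K : EComplex X V) {γ : ℝ → X} {T : ℝ}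
    (hγ : IsGeod γ T) {x t y : ℝ} (hx : x ∈ Icc 0 T) (hy : y ∈ Icc 0 T) (hxt : x < t) (hty : t < y)
    {s s' : Finset V} (hs : s ∈ K.faces) (hs' : s' ∈ K.faces) (h1 : SuppIn (K.co (γ x)) s)
    (h2 : SuppIn (K.co (γ t)) s) (h3 : SuppIn (K.co (γ t)) s') (h4 : SuppIn (K.co (γ y)) s') (w : V → ℝ)
    (hw : ∀ v, K.co (γ t) v = 0 → w v = 0) (hsum : ∑ v ∈ s, w v = 0) :
    bil (fun u v => K.len u v ^ 2) s (K.co (γ t) - K.co (γ x)) w * (y - t) =
      bil (fun u v => K.len u v ^ 2) s' (K.co (γ y) - K.co (γ t)) w * (t - x) := by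
  classical
  obtain ⟨lam, hlam⟩ : ∃ lam : V → V → ℝ, lam = fun u v => K.len u v ^ 2 := ⟨_, rfl⟩
  have hsymm : ∀ u v, lam u v = lam v u := by
    intro u v
    rw [hlam]
    simp only [EComplex.len]
    rw [dist_comm]
  have htT : t ∈ Icc 0 T := ⟨le_trans hx.1 hxt.le, le_trans hty.le hy.2⟩
  obtain ⟨F, hF, hF1, hF2⟩ := K.carrier (γ t)
  have hFs : F ⊆ s := fun v hv => by
    by_contra hv'
    have := (hF1 v).2 hv
    rw [h2 v hv'] at this
    exact lt_irrefl _ this
  have hFs' : F ⊆ s' := fun v hv => by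
    by_contra hv'
    have := (hF1 v).2 hv
    rw [h3 v hv'] at this
    exact lt_irrefl _ this
  have hcF : SuppIn (K.co (γ t)) F := fun v hv => by
    by_contra hne
    exact hv ((hF1 v).1 (lt_of_le_of_ne (K.co_nonneg _ v) (Ne.symm hne)))
  have hwF : SuppIn w F := fun v hv => hw v (hcF v hv)
  have hwsum : ∑ v ∈ F, w v = 0 := by rw [← hwF.sum_eq hFs]; exact hsum
  have hFne : F.Nonempty := by
    by_contra h
    rw [Finset.not_nonempty_iff_eq_empty] at h
    rw [h] at hF2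
    simp at hF2
  -- size of the variation
  obtain ⟨η₀, hη0, hη⟩ : ∃ η₀ : ℝ, 0 < η₀ ∧ ∀ v ∈ F, η₀ * |w v| ≤ K.co (γ t) v := by
    obtain ⟨v0, hv0, hmin⟩ := Finset.exists_min_image F (fun v => K.co (γ t) v / (|w v| + 1)) hFne
    refine ⟨K.co (γ t) v0 / (|w v0| + 1), div_pos ((hF1 v0).2 hv0) (by positivity), fun v hv => ?_⟩
    have h5 := hmin v hv
    have h6 : 0 < |w v| + 1 := by positivity
    calc K.co (γ t) v0 / (|w v0| + 1) * |w v| ≤ K.co (γ t) v / (|w v| + 1) * |w v| :=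
          mul_le_mul_of_nonneg_right h5 (abs_nonneg _)
      _ = K.co (γ t) v * (|w v| / (|w v| + 1)) := by ring
      _ ≤ K.co (γ t) v * 1 := by
          apply mul_le_mul_of_nonneg_left _ (K.co_nonneg _ _)
          rw [div_le_one h6]
          linarith
      _ = K.co (γ t) v := mul_one _
  have hD1 : 0 < t - x := by linarith
  have hD2 : 0 < y - t := by linarith
  have hd1 : dist (γ x) (γ t) = t - x := by
    rw [hγ x hx t htT, abs_sub_comm, abs_of_pos hD1]
  have hd2 : dist (γ t) (γ y) = y - t := by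
    rw [hγ t htT y hy, abs_sub_comm, abs_of_pos hD2]
  have hd3 : dist (γ x) (γ y) = y - x := by
    rw [hγ x hx y hy, abs_sub_comm, abs_of_pos (by linarith)]
  have hq1 := dist_sq K hs h1 h2
  have hq2 := dist_sq K hs' h3 h4
  rw [← hlam] at hq1 hq2
  rw [hd1] at hq1
  rw [hd2] at hq2
  obtain ⟨p, hp⟩ : ∃ p, p = bil lam s (K.co (γ t) - K.co (γ x)) w := ⟨_, rfl⟩
  obtain ⟨p', hp'⟩ : ∃ p', p' = bil lam s' (K.co (γ y) - K.co (γ t)) w := ⟨_, rfl⟩
  obtain ⟨q, hq⟩ : ∃ q, q = bil lam s w w := ⟨_, rfl⟩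
  obtain ⟨q', hq'⟩ : ∃ q', q' = bil lam s' w w := ⟨_, rfl⟩
  have key : ∀ η, |η| ≤ η₀ → 0 ≤ η * (p / (t - x) - p' / (y - t)) +
      η ^ 2 * (q / (2 * (t - x)) + q' / (2 * (y - t))) := by
    intro η hηη
    have hnn : ∀ v, 0 ≤ (K.co (γ t) + η • w) v := by
      intro v
      simp only [Pi.add_apply, Pi.smul_apply, smul_eq_mul]
      by_cases hv : v ∈ F
      · have h5 := hη v hv
        have h6 : |η * w v| ≤ K.co (γ t) v := by
          rw [abs_mul]
          exact le_trans (mul_le_mul_of_nonneg_right hηη (abs_nonneg _)) h5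
        have h7 := neg_abs_le (η * w v)
        linarith
      · rw [hcF v hv, hwF v hv]
        simp
    have hsupp : SuppIn (K.co (γ t) + η • w) F := hcF.add (hwF.smul η)
    have hsum1 : ∑ v ∈ F, (K.co (γ t) + η • w) v = 1 := by
      simp only [Pi.add_apply, Pi.smul_apply, smul_eq_mul]
      rw [Finset.sum_add_distrib, ← Finset.mul_sum, hwsum, hF2]
      ring
    obtain ⟨z, hz⟩ := K.exists_pt F hF _ hnn hsupp hsum1
    have hzF : SuppIn (K.co z) F := by rw [hz]; exact hsupp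
    have e1 : dist (γ x) z ^ 2 = (t - x) ^ 2 + (2 * η * p + η ^ 2 * q) := by
      rw [dist_sq K hs h1 (hzF.mono hFs), ← hlam, hz, hp, hq]
      have : K.co (γ t) + η • w - K.co (γ x) = (K.co (γ t) - K.co (γ x)) + η • w := by
        funext v
        simp only [Pi.add_apply, Pi.sub_apply, Pi.smul_apply, smul_eq_mul]
        ring
      rw [this, bil_add_left, bil_add_right, bil_add_right, bil_smul_left, bil_smul_left, bil_smul_right,
        bil_smul_right, ← hq1, bil_symm lam hsymm s w]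
      ring
    have e2 : dist z (γ y) ^ 2 = (y - t) ^ 2 + (-(2 * η * p') + η ^ 2 * q') := by
      rw [dist_sq K hs' (hzF.mono hFs') h4, ← hlam, hz, hp', hq']
      have : K.co (γ y) - (K.co (γ t) + η • w) = (K.co (γ y) - K.co (γ t)) - η • w := by
        funext v
        simp only [Pi.add_apply, Pi.sub_apply, Pi.smul_apply, smul_eq_mul]
        ring
      rw [this, bil_sub_self lam hsymm, ← hq2]
      ring
    have f1 := dist_le_of_sq hD1 e1
    have f2 := dist_le_of_sq hD2 e2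
    have f3 := dist_triangle (γ x) z (γ y)
    rw [hd3] at f3
    have f4 : (2 * η * p + η ^ 2 * q) / (2 * (t - x)) = η * (p / (t - x)) + η ^ 2 * (q / (2 * (t - x))) := by
      field_simp
    have f5 : (-(2 * η * p') + η ^ 2 * q') / (2 * (y - t)) =
        -(η * (p' / (y - t))) + η ^ 2 * (q' / (2 * (y - t))) := by
      field_simp
    rw [f4] at f1
    rw [f5] at f2
    nlinarith
  have h8 := eq_zero_of_quad hη0 key
  rw [← hlam, ← hp, ← hp']
  have h9 : p / (t - x) = p' / (y - t) := by linarith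
  rw [div_eq_div_iff hD1.ne' hD2.ne'] at h9
  exact h9

/-- BR4 -/
theorem broken_of_geod (hX : IsCAT0 X) (K : EComplex X V) {γ : ℝ → X} {T : ℝ}
    (hγ : IsGeod γ T) : Broken K.faces (fun u v => K.len u v ^ 2) (fun t => K.co (γ t)) 0 T := by
  refine ⟨fun t _ v => K.co_nonneg _ v, fun t _ => K.carrier (γ t), ?_, ?_, ?_, ?_⟩
  · intro x hx y hy hxy s hs h1 h2
    refine ⟨fun t ht v => straight hX K hγ hx hy hxy hs h1 h2 ht v, ?_⟩
    have := dist_sq K hs h1 h2
    rw [hγ x hx y hy, sq_abs] at this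
    rw [← this]
    ring
  · intro t ht
    obtain ⟨ε, hε, h⟩ := K.locally (γ t)
    have hy : min (t + ε / 2) T ∈ Ioc t T := ⟨lt_min (by linarith) ht.2, min_le_right _ _⟩
    refine ⟨min (t + ε / 2) T, hy, ?_⟩
    have hd : dist (γ t) (γ (min (t + ε / 2) T)) < ε := by
      rw [hγ t ⟨ht.1, ht.2.le⟩ _ ⟨le_trans ht.1 hy.1.le, hy.2⟩, abs_sub_comm, abs_of_pos (by linarith [hy.1])]
      have := min_le_left (t + ε / 2) T
      linarith
    exact h _ hd
  · intro t ht
    obtain ⟨ε, hε, h⟩ := K.locally (γ t)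
    have hx : max (t - ε / 2) 0 ∈ Ico 0 t := ⟨le_max_right _ _, max_lt (by linarith) ht.1⟩
    refine ⟨max (t - ε / 2) 0, hx, ?_⟩
    have hd : dist (γ t) (γ (max (t - ε / 2) 0)) < ε := by
      rw [hγ t ⟨ht.1.le, ht.2⟩ _ ⟨hx.1, le_trans hx.2.le ht.2⟩, abs_of_pos (by linarith [hx.2])]
      have := le_max_left (t - ε / 2) 0
      linarith
    obtain ⟨s, hs, h1, h2⟩ := h _ hd
    exact ⟨s, hs, h2, h1⟩
  · intro x hx t ht y hy hxt hty s hs s' hs' h1 h2 h3 h4 w hw hsum
    exact first_variation K hγ hx hy hxt hty hs hs' h1 h2 h3 h4 w hw hsum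

end Pool.Agent.BP
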