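import Pool.Agent.Lib.MP_98022b_b4.Subdiv

/-!
# Row P7: a geodesic of length at most one has a bounded number of pieces (Bridson)
-/

set_option autoImplicit false

open Set Filter Topology

namespace Pool.Agent.BP

theorem Broken.lip_piece {V : Type} {faces : Set (Finset V)} {lam : V → V → ℝ} {c : ℝ → V → ℝ} {a b : ℝ}
    {n : ℕ} {c1 C1 : ℝ} (hS : IsShapes faces lam n c1 C1) (h : Broken faces lam c a b) (v : V) {x y : ℝ}
    (hx : x ∈ Icc a b) (hy : y ∈ Icc a b) (hxy : x < y) {s : Finset V} (hs : s ∈ faces)
    (h1 : SuppIn (c x) s) (h2 : SuppIn (c y) s) : |c x v - c y v| ≤ (y - x) / Real.sqrt c1 := by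
  have hc := hS.c1_pos
  have hsq : 0 < Real.sqrt c1 := Real.sqrt_pos.mpr hc
  by_cases hv : v ∈ s
  · have hq := (h.straight x hx y hy hxy s hs h1 h2).2
    have hsum : ∑ v ∈ s, (c y - c x) v = 0 := by
      simp only [Pi.sub_apply, Finset.sum_sub_distrib]
      rw [h.sum_eq_one hx h1, h.sum_eq_one hy h2, sub_self]
    have hl := hS.lower s hs (c y - c x) (h2.sub h1) hsum
    rw [hq] at hl
    have hle : (c y - c x) v ^ 2 ≤ ∑ v ∈ s, (c y - c x) v ^ 2 :=
      Finset.single_le_sum (f := fun v => (c y - c x) v ^ 2) (fun _ _ => sq_nonneg _) hv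
    have h3 : c1 * (c y - c x) v ^ 2 ≤ (y - x) ^ 2 := le_trans (mul_le_mul_of_nonneg_left hle hc.le) hl
    rw [le_div_iff₀ hsq]
    have h4 : (|c x v - c y v| * Real.sqrt c1) ^ 2 ≤ (y - x) ^ 2 := by
      rw [mul_pow, sq_abs, Real.sq_sqrt hc.le]
      have : (c x v - c y v) ^ 2 = (c y - c x) v ^ 2 := by
        simp only [Pi.sub_apply]; ring
      rw [this, mul_comm]
      exact h3
    exact abs_le_of_sq_le_sq' h4 (sub_nonneg.mpr hxy.le) |>.2
  · rw [h1 v hv, h2 v hv]
    simp only [sub_self, abs_zero]
    exact div_nonneg (sub_nonneg.mpr hxy.le) hsq.le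

/-- the coordinates are Lipschitz along a broken geodesic -/
theorem Broken.lipschitz {V : Type} {faces : Set (Finset V)} {lam : V → V → ℝ} {c : ℝ → V → ℝ} {a b : ℝ}
    {n : ℕ} {c1 C1 : ℝ} (hS : IsShapes faces lam n c1 C1) (h : Broken faces lam c a b) (v : V) {x y : ℝ}
    (hx : x ∈ Icc a b) (hy : y ∈ Icc a b) : |c x v - c y v| ≤ |x - y| / Real.sqrt c1 := by
  have key : ∀ x y : ℝ, x ∈ Icc a b → y ∈ Icc a b → x < y → |c x v - c y v| ≤ (y - x) / Real.sqrt c1 := by
    intro x y hx hy hxy
    obtain ⟨k, t, s, h0, hk, hlt, hs⟩ := (h.subInterval hx.1 hy.2).exists_pieces hxy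
    have hmono : ∀ i ≤ k, x ≤ t i := by
      intro i
      induction i with
      | zero => intro _; rw [h0]
      | succ i ih => intro hi; exact le_trans (ih (by omega)) (hlt i (by omega)).le
    have hmono' : ∀ j, j ≤ k → t (k - j) ≤ y := by
      intro j
      induction j with
      | zero => intro _; rw [Nat.sub_zero, hk]
      | succ j ih =>
        intro hj
        have h1 := hlt (k - (j + 1)) (by omega)
        have h2 : k - (j + 1) + 1 = k - j := by omega
        rw [h2] at h1
        exact le_trans h1.le (ih (by omega))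
    have hmem : ∀ i ≤ k, t i ∈ Icc a b := by
      intro i hi
      refine ⟨le_trans hx.1 (hmono i hi), ?_⟩
      have := hmono' (k - i) (by omega)
      rw [show k - (k - i) = i by omega] at this
      exact le_trans this hy.2
    have hstep : ∀ i ≤ k, |c x v - c (t i) v| ≤ (t i - x) / Real.sqrt c1 := by
      intro i
      induction i with
      | zero => intro _; rw [h0]; simp
      | succ i ih =>
        intro hi
        have h1 := ih (by omega)
        obtain ⟨hf, hf1, hf2⟩ := hs i (by omega)
        have h2 := h.lip_piece hS v (hmem i (by omega)) (hmem (i + 1) hi) (hlt i (by omega)) hf hf1 hf2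
        calc |c x v - c (t (i + 1)) v| ≤ |c x v - c (t i) v| + |c (t i) v - c (t (i + 1)) v| :=
              abs_sub_le _ _ _
          _ ≤ (t i - x) / Real.sqrt c1 + (t (i + 1) - t i) / Real.sqrt c1 := add_le_add h1 h2
          _ = (t (i + 1) - x) / Real.sqrt c1 := by ring
    have := hstep k le_rfl
    rwa [hk] at this
  rcases lt_trichotomy x y with hxy | hxy | hxy
  · rw [abs_sub_comm x y, abs_of_pos (sub_pos.mpr hxy)]
    exact key x y hx hy hxy
  · subst hxy; simp
  · rw [abs_of_pos (sub_pos.mpr hxy), abs_sub_comm]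
    exact key y x hy hx hxy

theorem Pieces.concat {V : Type} {faces : Set (Finset V)} {c : ℝ → V → ℝ} {N : ℕ} (t : ℕ → ℝ) (m : ℕ)
    (h : ∀ i < m, Pieces faces c N (t i) (t (i + 1))) : Pieces faces c (m * N) (t 0) (t m) := by
  induction m with
  | zero => rw [Nat.zero_mul]; exact Pieces.refl _
  | succ m ih =>
    rw [Nat.succ_mul]
    exact (ih (fun i hi => h i (by omega))).trans (h m (by omega))

/-- the points of a monotone finite sequence -/
theorem mem_Icc_of_mono {a b : ℝ} {t : ℕ → ℝ} {m : ℕ} (h0 : t 0 = a) (hm : t m = b)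
    (hle : ∀ i < m, t i ≤ t (i + 1)) : ∀ i ≤ m, t i ∈ Icc a b := by
  have hmono : ∀ i ≤ m, a ≤ t i := by
    intro i
    induction i with
    | zero => intro _; rw [h0]
    | succ i ih => intro hi; exact le_trans (ih (by omega)) (hle i (by omega))
  have hmono' : ∀ j, j ≤ m → t (m - j) ≤ b := by
    intro j
    induction j with
    | zero => intro _; rw [Nat.sub_zero, hm]
    | succ j ih =>
      intro hj
      have h1 := hle (m - (j + 1)) (by omega)
      have h2 : m - (j + 1) + 1 = m - j := by omega
      rw [h2] at h1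
      exact le_trans h1 (ih (by omega))
  intro i hi
  refine ⟨hmono i hi, ?_⟩
  have := hmono' (m - i) (by omega)
  rwa [show m - (m - i) = i by omega] at this

/-- all carriers contain the face `F` -/
theorem pieces_star (n : ℕ) (c1 C1 : ℝ) (j : ℕ) : ∃ N : ℕ, ∀ {V : Type} (faces : Set (Finset V))
    (lam : V → V → ℝ) (c : ℝ → V → ℝ) (a b : ℝ) (F : Finset V), IsShapes faces lam n c1 C1 → a ≤ b →
    Broken faces lam c a b → F ∈ faces → F.Nonempty → n + 1 ≤ F.card + j →
    (∀ x ∈ Icc a b, ∀ v ∈ F, 0 < c x v) → Pieces faces c N a b := by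
  classical
  induction j with
  | zero =>
    refine ⟨1, ?_⟩
    intro V faces lam c a b F hS hab h hF hne hcard hpos
    have hsupp : ∀ x ∈ Icc a b, SuppIn (c x) F := by
      intro x hx v hv
      obtain ⟨s, hs, h1, _⟩ := h.carrier x hx
      have hsub : F ⊆ s := fun v hv => (h1 v).mp (hpos x hx v hv)
      have hFs : F = s := Finset.eq_of_subset_of_card_le hsub (by
        have := hS.card_le s hs
        omega)
      by_contra hne'
      exact hv (hFs ▸ (h1 v).mp (lt_of_le_of_ne (h.nonneg x hx v) (Ne.symm hne')))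
    refine ⟨fun i => if i = 0 then a else b, by simp, by simp, ?_, ?_⟩
    · intro i hi
      have : i = 0 := by omega
      subst this
      simpa using hab
    · intro i hi
      have : i = 0 := by omega
      subst this
      refine ⟨F, hF, ?_, ?_⟩
      · simpa using hsupp a ⟨le_rfl, hab⟩
      · simpa using hsupp b ⟨hab, le_rfl⟩
  | succ j ih =>
    obtain ⟨N, hN⟩ := ih
    obtain ⟨M, hM⟩ := exists_subdiv n c1 C1
    refine ⟨2 + M * N, ?_⟩
    intro V faces lam c a b F hS hab h hF hne hcard hpos
    have hfb : ∃ s ∈ faces, SuppIn (c b) s := h.exists_face ⟨hab, le_rfl⟩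
    by_cases hZ : ∃ z ∈ Icc a b, SuppIn (c z) F
    · obtain ⟨z, hz, hzF⟩ := hZ
      have hface : ∀ x ∈ Icc a b, ∃ s ∈ faces, F ⊆ s ∧ SuppIn (c x) s := by
        intro x hx
        obtain ⟨s, hs, h1, _⟩ := h.carrier x hx
        refine ⟨s, hs, fun v hv => (h1 v).mp (hpos x hx v hv), fun v hv => ?_⟩
        by_contra hne'
        exact hv ((h1 v).mp (lt_of_le_of_ne (h.nonneg x hx v) (Ne.symm hne')))
      obtain ⟨sa, hsa, hFa, hca⟩ := hface a ⟨le_rfl, hab⟩
      obtain ⟨sb, hsb, hFb, hcb⟩ := hface b ⟨hab, le_rfl⟩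
      have h2 : Pieces faces c 2 a b := by
        refine ⟨fun i => if i = 0 then a else if i = 1 then z else b, by simp, by simp, ?_, ?_⟩
        · intro i hi
          have : i = 0 ∨ i = 1 := by omega
          rcases this with rfl | rfl
          · simpa using hz.1
          · simpa using hz.2
        · intro i hi
          have : i = 0 ∨ i = 1 := by omega
          rcases this with rfl | rfl
          · refine ⟨sa, hsa, ?_, ?_⟩
            · simpa using hca
            · simpa using hzF.mono hFa
          · refine ⟨sb, hsb, ?_, ?_⟩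
            · simpa using hzF.mono hFb
            · simpa using hcb
      exact h2.mono hfb (by omega)
    · rcases hab.lt_or_eq with hlt | heq
      · have hnz : ∀ x ∈ Icc a b, ∃ v, v ∉ F ∧ 0 < c x v := by
          intro x hx
          by_contra hcon
          push Not at hcon
          exact hZ ⟨x, hx, fun v hv => le_antisymm (hcon v hv) (h.nonneg x hx v)⟩
        obtain ⟨t, h0, hm, hle, hw⟩ := hM faces lam c a b F hS hlt h hF hne hpos hnz
        have hmem := mem_Icc_of_mono h0 hm hle
        have hp : ∀ i < M, Pieces faces c N (t i) (t (i + 1)) := by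
          intro i hi
          obtain ⟨w, hwF, hwpos⟩ := hw i hi
          have hi1 := hmem i (by omega)
          have hi2 := hmem (i + 1) (by omega)
          obtain ⟨s, hs, h1, _⟩ := h.carrier (t i) hi1
          have hsub : insert w F ⊆ s := by
            intro v hv
            rcases Finset.mem_insert.mp hv with rfl | hv
            · exact (h1 v).mp (hwpos (t i) ⟨le_rfl, hle i hi⟩)
            · exact (h1 v).mp (hpos (t i) hi1 v hv)
          have hface : insert w F ∈ faces := hS.down s hs _ hsub (Finset.insert_nonempty _ _)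
          refine hN faces lam c (t i) (t (i + 1)) (insert w F) hS (hle i hi)
            (h.subInterval hi1.1 hi2.2) hface (Finset.insert_nonempty _ _) ?_ ?_
          · rw [Finset.card_insert_of_notMem hwF]
            omega
          · intro x hx v hv
            rcases Finset.mem_insert.mp hv with rfl | hv
            · exact hwpos x hx
            · exact hpos x ⟨le_trans hi1.1 hx.1, le_trans hx.2 hi2.2⟩ v hv
        have := Pieces.concat t M hp
        rw [h0, hm] at this
        exact this.mono hfb (by omega)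
      · subst heq
        exact (Pieces.refl a).mono hfb (by omega)

theorem pieces_unit (n : ℕ) (c1 C1 : ℝ) : ∃ N : ℕ, ∀ {V : Type} (faces : Set (Finset V))
    (lam : V → V → ℝ) (c : ℝ → V → ℝ) (a b : ℝ), IsShapes faces lam n c1 C1 → a ≤ b → b ≤ a + 1 →
    Broken faces lam c a b → Pieces faces c N a b := by
  classical
  obtain ⟨N, hN⟩ := pieces_star n c1 C1 n
  obtain ⟨m, hm⟩ := exists_nat_gt ((n + 2 : ℝ) / Real.sqrt c1)
  refine ⟨m * N, ?_⟩
  intro V faces lam c a b hS hab hb1 h
  have hc := hS.c1_pos
  have hsq : 0 < Real.sqrt c1 := Real.sqrt_pos.mpr hc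
  set δ : ℝ := Real.sqrt c1 / (n + 2) with hδ
  have hn2 : (0 : ℝ) < n + 2 := by positivity
  have hδ0 : 0 < δ := by positivity
  have hmδ : 1 ≤ m * δ := by
    rw [div_lt_iff₀ hsq] at hm
    rw [hδ, ← mul_div_assoc, le_div_iff₀ hn2]
    linarith
  let t : ℕ → ℝ := fun i => min (a + i * δ) b
  have h0 : t 0 = a := by simp [t, hab]
  have htm : t m = b := by
    simp only [t]
    exact min_eq_right (by linarith)
  have hle : ∀ i < m, t i ≤ t (i + 1) := by
    intro i _
    simp only [t]
    push_cast
    exact min_le_min_right _ (by nlinarith)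
  have hlen : ∀ i < m, t (i + 1) ≤ t i + δ := by
    intro i _
    simp only [t]
    push_cast
    rw [← min_add_add_right]
    refine min_le_min (by linarith) (by linarith)
  have hmem := mem_Icc_of_mono h0 htm hle
  have hp : ∀ i < m, Pieces faces c N (t i) (t (i + 1)) := by
    intro i hi
    have hi1 := hmem i (by omega)
    have hi2 := hmem (i + 1) (by omega)
    obtain ⟨s, hs, h1, hsum⟩ := h.carrier (t i) hi1
    have hv : ∃ v ∈ s, 1 / ((n : ℝ) + 1) ≤ c (t i) v := by
      by_contra hcon
      push Not at hcon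
      have hne : s.Nonempty := by
        by_contra hemp
        rw [Finset.not_nonempty_iff_eq_empty] at hemp
        rw [hemp] at hsum
        simp at hsum
      have hlt : ∑ v ∈ s, c (t i) v < ∑ v ∈ s, 1 / ((n : ℝ) + 1) :=
        Finset.sum_lt_sum_of_nonempty hne hcon
      rw [hsum, Finset.sum_const, nsmul_eq_mul] at hlt
      have hcard : (s.card : ℝ) ≤ n + 1 := by exact_mod_cast hS.card_le s hs
      have hpos1 : (0 : ℝ) < n + 1 := by positivity
      rw [mul_one_div, lt_div_iff₀ hpos1] at hlt
      linarith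
    obtain ⟨v, hvs, hvle⟩ := hv
    have hface : ({v} : Finset V) ∈ faces :=
      hS.down s hs _ (Finset.singleton_subset_iff.mpr hvs) (Finset.singleton_nonempty _)
    refine hN faces lam c (t i) (t (i + 1)) {v} hS (hle i hi) (h.subInterval hi1.1 hi2.2) hface
      (Finset.singleton_nonempty _) (by simp) ?_
    intro x hx w hw
    rw [Finset.mem_singleton] at hw
    subst hw
    have hxm : x ∈ Icc a b := ⟨le_trans hi1.1 hx.1, le_trans hx.2 hi2.2⟩
    have hlip := h.lipschitz hS w hi1 hxm
    have hd : |t i - x| ≤ δ := by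
      rw [abs_sub_comm, abs_of_nonneg (sub_nonneg.mpr hx.1)]
      have := hlen i hi
      linarith [hx.2]
    have h3 : |t i - x| / Real.sqrt c1 ≤ 1 / ((n : ℝ) + 2) := by
      rw [div_le_div_iff₀ hsq hn2]
      have : |t i - x| * (n + 2) ≤ δ * (n + 2) := mul_le_mul_of_nonneg_right hd hn2.le
      rw [hδ, div_mul_cancel₀ _ hn2.ne'] at this
      linarith
    have h4 : 1 / ((n : ℝ) + 2) < 1 / ((n : ℝ) + 1) :=
      one_div_lt_one_div_of_lt (by positivity) (by linarith)
    have h5 := (abs_le.mp (le_trans hlip h3)).2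
    linarith
  have := Pieces.concat t m hp
  rwa [h0, htm] at this

/-- `N (T + 1)` pieces on an interval of length `T` -/
theorem pieces_le (n : ℕ) (c1 C1 : ℝ) : ∃ N : ℕ, ∀ {V : Type} (faces : Set (Finset V))
    (lam : V → V → ℝ) (c : ℝ → V → ℝ) (a b : ℝ) (T : ℕ), IsShapes faces lam n c1 C1 → a ≤ b → b ≤ a + T →
    Broken faces lam c a b → Pieces faces c (N * (T + 1)) a b := by
  classical
  obtain ⟨N, hN⟩ := pieces_unit n c1 C1
  refine ⟨N, ?_⟩
  intro V faces lam c a b T hS hab hbT h
  let t : ℕ → ℝ := fun i => min (a + i) b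
  have h0 : t 0 = a := by simp [t, hab]
  have htm : t (T + 1) = b := by
    simp only [t]
    push_cast
    exact min_eq_right (by linarith)
  have hle : ∀ i < T + 1, t i ≤ t (i + 1) := by
    intro i _
    simp only [t]
    push_cast
    exact min_le_min_right _ (by linarith)
  have hlen : ∀ i < T + 1, t (i + 1) ≤ t i + 1 := by
    intro i _
    simp only [t]
    push_cast
    rw [← min_add_add_right]
    refine min_le_min (by linarith) (by linarith)
  have hmem := mem_Icc_of_mono h0 htm hle
  have hp : ∀ i < T + 1, Pieces faces c N (t i) (t (i + 1)) := by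
    intro i hi
    have hi1 := hmem i (by omega)
    have hi2 := hmem (i + 1) (by omega)
    exact hN faces lam c (t i) (t (i + 1)) hS (hle i hi) (hlen i hi) (h.subInterval hi1.1 hi2.2)
  have := Pieces.concat t (T + 1) hp
  rw [h0, htm] at this
  rwa [Nat.mul_comm]

end Pool.Agent.BP
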