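import Pool.Agent.Lib.MP_98022b_b4.Bridge
import Pool.Agent.Lib.MP_98022b_b4.Main
import Pool.Agent.Lib.MP_98022b_td.EucConst
import Pool.Agent.Lib.MP_98022b_td.CatCN
import Pool.Agent.Lib.MP_98022b_nd.WinDefs

/-!
# The windows of geodesics of a CAT(0) complex with finitely many shapes have few pieces
-/

set_option autoImplicit false

open Set Filter Topology

namespace Pool.Agent.BP

open Pool.Agent.TD Pool.Agent.TD.EComplex Pool.Agent.ND

variable {X V : Type} [MetricSpace X]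

theorem mono_le {t : ℕ → ℝ} {P : ℕ} (h : ∀ i < P, t i ≤ t (i + 1)) {i j : ℕ} (hij : i ≤ j) (hj : j ≤ P) :
    t i ≤ t j := by
  induction j, hij using Nat.le_induction with
  | base => exact le_rfl
  | succ j hij ih => exact le_trans (ih (by omega)) (h j (by omega))

theorem fewWin_of_cat0 [CompleteSpace X] (hX : IsCAT0 X) (K : EComplex X V) (hfin : K.lens.Finite) {d : ℕ}
    (hd : ∀ s ∈ K.faces, s.card ≤ d + 1) : FewWin K geo := by
  classical
  obtain ⟨c1, C1, hS⟩ := exists_isShapes hfin hd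
  obtain ⟨N, hN⟩ := pieces_le d c1 C1
  refine ⟨N + 1, Nat.succ_pos N, fun x y n a b ha hab hb hn => ?_⟩
  obtain ⟨T, hT⟩ : ∃ T, T = b - a := ⟨_, rfl⟩
  have hT0 : 0 ≤ T := by rw [hT]; linarith
  have hgeo0 := isGeod_endPt hX x y
  have hγ : IsGeod (fun s => Pool.Agent.GLN.endPt geo x y (a + s)) T := by
    intro s hs s' hs'
    have h1 : a + s ∈ Icc 0 (dist x y) := ⟨by linarith [hs.1], by linarith [hs.2]⟩
    have h2 : a + s' ∈ Icc 0 (dist x y) := ⟨by linarith [hs'.1], by linarith [hs'.2]⟩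
    have h3 := hgeo0 (a + s) h1 (a + s') h2
    rw [h3]
    congr 1
    ring
  obtain ⟨γ, hγdef⟩ : ∃ γ : ℝ → X, γ = fun s => Pool.Agent.GLN.endPt geo x y (a + s) := ⟨_, rfl⟩
  rw [← hγdef] at hγ
  have hB := broken_of_geod hX K hγ
  have hP := hN K.faces (fun u v => K.len u v ^ 2) (fun t => K.co (γ t)) 0 T n hS hT0 (by rw [hT]; linarith) hB
  have hP' : Pieces K.faces (fun t => K.co (γ t)) ((N + 1) * (n + 1)) 0 T :=
    hP.mono (hB.exists_face ⟨hT0, le_rfl⟩) (Nat.mul_le_mul_right _ (Nat.le_succ N))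
  obtain ⟨t, t0, tP, tm, tp⟩ := hP'
  obtain ⟨P, hPdef⟩ : ∃ P, P = (N + 1) * (n + 1) := ⟨_, rfl⟩
  rw [← hPdef] at tP tm tp
  have hmem : ∀ i ≤ P, t i ∈ Icc 0 T := by
    intro i hi
    constructor
    · rw [← t0]; exact mono_le tm (Nat.zero_le i) hi
    · rw [← tP]; exact mono_le tm hi le_rfl
  choose! G hG using tp
  have hface : ∀ i < P, ∀ s ∈ Icc (t i) (t (i + 1)), K.In (γ s) (G i) := by
    intro i hi s hs
    rcases (tm i hi).eq_or_lt with h | h
    · have : s = t i := le_antisymm (by rw [h]; exact hs.2) hs.1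
      rw [this]
      exact ⟨(hG i hi).1, (hG i hi).2.1⟩
    · exact ⟨(hG i hi).1, hB.suppIn_of_mem (hmem i hi.le) (hmem (i + 1) hi) h (hG i hi).1 (hG i hi).2.1
        (hG i hi).2.2 hs⟩
  rw [← hPdef, ← hT]
  refine ⟨⟨γ, t, G, fun s hs s' hs' => hγ s hs s' hs', tm, t0, tP, hface, ?_, ?_⟩, fun s => congrFun hγdef s⟩
  · intro i hi
    rcases (tm i hi).eq_or_lt with h | h
    · refine ⟨K.co (γ (t i)), 0, fun s hs v => ?_⟩
      have : s = t i := le_antisymm (by rw [h]; exact hs.2) hs.1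
      rw [this]
      simp
    · have hst := (hB.straight (t i) (hmem i hi.le) (t (i + 1)) (hmem (i + 1) hi) h (G i) (hG i hi).1
        (hG i hi).2.1 (hG i hi).2.2).1
      refine ⟨fun v => K.co (γ (t i)) v - t i / (t (i + 1) - t i) * (K.co (γ (t (i + 1))) v - K.co (γ (t i)) v),
        fun v => 1 / (t (i + 1) - t i) * (K.co (γ (t (i + 1))) v - K.co (γ (t i)) v), fun s hs v => ?_⟩
      have := hst s hs v
      simp only at this ⊢
      rw [this]
      ring
  · intro z s hs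
    rcases hT0.eq_or_lt with h | h
    · have hs0 : s = 0 := le_antisymm (by rw [h]; exact hs.2) hs.1
      rw [← h, hs0]
      simp
    · have h1 : γ s = geo (γ 0) (γ T) ((s - 0) / (T - 0)) := hγ.eq_geo hX le_rfl h le_rfl hs
      rw [sub_zero, sub_zero] at h1
      have h2 := dist_geo_sq_le hX (γ 0) (γ T) z (t := s / T) (div_nonneg hs.1 h.le)
        ((div_le_one h).mpr hs.2)
      rw [← h1] at h2
      have h3 : dist (γ 0) (γ T) = T := by
        rw [hγ 0 ⟨le_rfl, hT0⟩ T ⟨hT0, le_rfl⟩, zero_sub, abs_neg, abs_of_nonneg hT0]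
      rw [h3] at h2
      have h4 := mul_le_mul_of_nonneg_left h2 hT0
      calc T * dist z (γ s) ^ 2 ≤ T * ((1 - s / T) * dist z (γ 0) ^ 2 + s / T * dist z (γ T) ^ 2 -
            s / T * (1 - s / T) * T ^ 2) := h4
        _ = (T - s) * dist z (γ 0) ^ 2 + s * dist z (γ T) ^ 2 - s * (T - s) * T := by
            field_simp

end Pool.Agent.BP
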