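import Pool.Agent.Lib.MP_98022b_b4.Basic

/-!
# Row P1: a broken geodesic has finitely many pieces (compactness)

Let `A` be the set of the `d ∈ [a, b]` such that `[a, d]` has a strict finite subdivision (or `d = a`); its supremum `m` is in `A`
by `left` (shrink the interval `[x, m]` with `suppIn_of_mem`) and equal to `b` by `right`.
-/

set_option autoImplicit false

open Set Filter Topology

namespace Pool.Agent.BP

variable {V : Type} {faces : Set (Finset V)} {lam : V → V → ℝ} {c : ℝ → V → ℝ} {a b : ℝ}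

private def P1Sub (faces : Set (Finset V)) (c : ℝ → V → ℝ) (a d : ℝ) : Prop :=
  ∃ (k : ℕ) (t : ℕ → ℝ) (s : ℕ → Finset V), t 0 = a ∧ t k = d ∧ (∀ i < k, t i < t (i + 1)) ∧
      ∀ i < k, s i ∈ faces ∧ SuppIn (c (t i)) (s i) ∧ SuppIn (c (t (i + 1))) (s i)

private theorem P1Sub.extend {d d' : ℝ} (h : P1Sub faces c a d) (hd : d < d') {s' : Finset V}
    (hs' : s' ∈ faces) (h1 : SuppIn (c d) s') (h2 : SuppIn (c d') s') : P1Sub faces c a d' := by
  obtain ⟨k, t, s, t0, tk, tm, tp⟩ := h
  refine ⟨k + 1, fun i => if i ≤ k then t i else d', fun i => if i < k then s i else s', ?_, ?_, ?_, ?_⟩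
  · simp [t0]
  · simp
  · intro i hi
    rcases Nat.lt_or_ge i k with h3 | h3
    · have e1 : i ≤ k := h3.le
      have e2 : i + 1 ≤ k := h3
      simp only [e1, e2, if_true]
      exact tm i h3
    · have e0 : i = k := by omega
      subst e0
      have e2 : ¬ i + 1 ≤ i := by omega
      simp only [le_refl, if_true, e2, if_false]
      rw [tk]
      exact hd
  · intro i hi
    rcases Nat.lt_or_ge i k with h3 | h3
    · have e1 : i ≤ k := h3.le
      have e2 : i + 1 ≤ k := h3
      simp only [e1, e2, h3, if_true]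
      exact tp i h3
    · have e0 : i = k := by omega
      subst e0
      have e2 : ¬ i + 1 ≤ i := by omega
      have e3 : ¬ i < i := by omega
      simp only [le_refl, if_true, e2, e3, if_false]
      rw [tk]
      exact ⟨hs', h1, h2⟩

theorem Broken.exists_pieces (h : Broken faces lam c a b) (hab : a < b) :
    ∃ (k : ℕ) (t : ℕ → ℝ) (s : ℕ → Finset V), t 0 = a ∧ t k = b ∧ (∀ i < k, t i < t (i + 1)) ∧
      ∀ i < k, s i ∈ faces ∧ SuppIn (c (t i)) (s i) ∧ SuppIn (c (t (i + 1))) (s i) := by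
  have hmain : P1Sub faces c a b := by
    let A : Set ℝ := {d | d ∈ Icc a b ∧ P1Sub faces c a d}
    have haA : a ∈ A := by
      refine ⟨⟨le_rfl, hab.le⟩, 0, fun _ => a, fun _ => ∅, rfl, rfl, ?_, ?_⟩
      · intro i hi
        exact absurd hi (Nat.not_lt_zero i)
      · intro i hi
        exact absurd hi (Nat.not_lt_zero i)
    have hbdd : BddAbove A := ⟨b, fun d hd => hd.1.2⟩
    have hne : A.Nonempty := ⟨a, haA⟩
    have ham : a ≤ sSup A := le_csSup hbdd haA
    have hmb : sSup A ≤ b := csSup_le hne fun d hd => hd.1.2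
    have hmA : P1Sub faces c a (sSup A) := by
      rcases eq_or_lt_of_le ham with he | hlt
      · rw [← he]
        exact haA.2
      · obtain ⟨x, hx, s, hs, h1, h2⟩ := h.left (sSup A) ⟨hlt, hmb⟩
        obtain ⟨d, hdA, hxd⟩ := exists_lt_of_lt_csSup hne hx.2
        have hdm : d ≤ sSup A := le_csSup hbdd hdA
        rcases eq_or_lt_of_le hdm with he | hlt2
        · rw [← he]
          exact hdA.2
        · have h3 : SuppIn (c d) s :=
            h.suppIn_of_mem ⟨hx.1, hx.2.le.trans hmb⟩ ⟨ham, hmb⟩ hx.2 hs h1 h2 ⟨hxd.le, hdm⟩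
          exact hdA.2.extend hlt2 hs h3 h2
    rcases eq_or_lt_of_le hmb with he | hlt
    · rw [← he]
      exact hmA
    · obtain ⟨y, hy, s, hs, h1, h2⟩ := h.right (sSup A) ⟨ham, hlt⟩
      have hyA : y ∈ A := ⟨⟨ham.trans hy.1.le, hy.2⟩, hmA.extend hy.1 hs h1 h2⟩
      exact absurd (le_csSup hbdd hyA) (not_le.2 hy.1)
  exact hmain

end Pool.Agent.BP
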