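import Pool.Agent.Lib.MP_98022b_b4.Proj

/-!
# Row P4: two inequalities of linear algebra in one simplex

(1) `gram`: replace `e` by `e' = e - (B y e / B y y) y` (if `B y y = 0` then `l1 y = l2 y = 0`).
(2) `normal_le`: the vector `z` with `z v = y v` outside `F`, `z v0 = - ∑ v ∉ F, y v`, `z = 0` at the other vertices of `F`
differs from `y` by a tangent vector of `F`, so `B y y ≤ B z z ≤ C1 ∑ z ^ 2 ≤ 2 C1 g ^ 2`.
-/

set_option autoImplicit false

open Set Filter Topology

namespace Pool.Agent.BP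

variable {V : Type} {faces : Set (Finset V)} {lam : V → V → ℝ} {n : ℕ} {c1 C1 : ℝ}

theorem gram (hS : IsShapes faces lam n c1 C1) {s : Finset V} (hs : s ∈ faces) (l1 l2 : (V → ℝ) →ₗ[ℝ] ℝ)
    (K : ℝ) (hK : 0 ≤ K) (h1 : ∀ x, Tan s x → l1 x ^ 2 ≤ K * bil lam s x x)
    (h2 : ∀ x, Tan s x → l2 x ^ 2 ≤ K * bil lam s x x) (y e : V → ℝ) (hy : Tan s y) (he : Tan s e) :
    (l1 e * l2 y - l1 y * l2 e) ^ 2 ≤
      4 * K ^ 2 * (bil lam s y y * bil lam s e e - bil lam s y e ^ 2) := by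
  have hnn : 0 ≤ bil lam s y y :=
    le_trans (mul_nonneg hS.c1_pos.le (Finset.sum_nonneg (fun v _ => sq_nonneg (y v))))
      (hS.lower s hs y hy.1 hy.2)
  rcases eq_or_lt_of_le hnn with h0 | h0
  · have hsum : ∑ v ∈ s, y v ^ 2 ≤ 0 := by
      have := hS.lower s hs y hy.1 hy.2
      rw [← h0] at this
      exact nonpos_of_mul_nonpos_right this hS.c1_pos
    have hsum0 : ∑ v ∈ s, y v ^ 2 = 0 :=
      le_antisymm hsum (Finset.sum_nonneg (fun v _ => sq_nonneg (y v)))
    have hy0 : y = 0 := by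
      funext v
      by_cases hv : v ∈ s
      · have := (Finset.sum_eq_zero_iff_of_nonneg (fun v _ => sq_nonneg (y v))).1 hsum0 v hv
        simpa using this
      · exact hy.1 v hv
    have hb : bil lam s y e = 0 := by
      have := bil_smul_left lam s 0 y e
      rw [hy0] at this ⊢
      simpa using this
    rw [← h0, hb, hy0]
    simp
  · obtain ⟨r, hr⟩ : ∃ r : ℝ, r = bil lam s y e / bil lam s y y := ⟨_, rfl⟩
    obtain ⟨e', he'⟩ : ∃ e' : V → ℝ, e' = e - r • y := ⟨_, rfl⟩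
    have hrY : r * bil lam s y y = bil lam s y e := by
      rw [hr]
      field_simp
    have hT : Tan s e' := by
      rw [he']
      refine ⟨he.1.sub (hy.1.smul r), ?_⟩
      simp only [Pi.sub_apply, Pi.smul_apply, smul_eq_mul, Finset.sum_sub_distrib, ← Finset.mul_sum]
      rw [he.2, hy.2]
      ring
    have hE : bil lam s e' e' * bil lam s y y =
        bil lam s y y * bil lam s e e - bil lam s y e ^ 2 := by
      rw [he']
      rw [bil_sub_left, bil_sub_right, bil_sub_right, bil_smul_left, bil_smul_right, bil_smul_left,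
        bil_smul_right, bil_symm lam hS.symm s e y]
      have h3 : (bil lam s e e - r * bil lam s y e -
          (r * bil lam s y e - r * (r * bil lam s y y))) * bil lam s y y =
          bil lam s y y * bil lam s e e - 2 * (r * bil lam s y y) * bil lam s y e +
            (r * bil lam s y y) ^ 2 := by ring
      rw [h3, hrY]
      ring
    have hl : l1 e * l2 y - l1 y * l2 e = l1 e' * l2 y - l1 y * l2 e' := by
      rw [he']
      simp only [map_sub, map_smul, smul_eq_mul]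
      ring
    have hEn : 0 ≤ bil lam s e' e' :=
      le_trans (mul_nonneg hS.c1_pos.le (Finset.sum_nonneg (fun v _ => sq_nonneg (e' v))))
        (hS.lower s hs e' hT.1 hT.2)
    rw [hl, ← hE]
    have a1 : (l1 e' * l2 y) ^ 2 ≤ (K * bil lam s e' e') * (K * bil lam s y y) := by
      rw [mul_pow]
      exact mul_le_mul (h1 e' hT) (h2 y hy) (sq_nonneg _) (mul_nonneg hK hEn)
    have a2 : (l1 y * l2 e') ^ 2 ≤ (K * bil lam s y y) * (K * bil lam s e' e') := by
      rw [mul_pow]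
      exact mul_le_mul (h1 y hy) (h2 e' hT) (sq_nonneg _) (mul_nonneg hK hnn)
    nlinarith [sq_nonneg (l1 e' * l2 y + l1 y * l2 e')]

theorem normal_le (hS : IsShapes faces lam n c1 C1) {s F : Finset V} (hs : s ∈ faces) (hFs : F ⊆ s)
    (hne : F.Nonempty) (y : V → ℝ) (hy : Tan s y) (hpos : ∀ v, v ∉ F → 0 ≤ y v)
    (horth : ∀ w, Tan F w → bil lam s y w = 0) :
    bil lam s y y ≤ 2 * C1 * (∑ v ∈ F, y v) ^ 2 := by
  classical
  obtain ⟨v0, hv0⟩ := hne
  obtain ⟨z, hz⟩ : ∃ z : V → ℝ, z = fun v => if v ∈ F then (if v = v0 then ∑ v ∈ F, y v else 0)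
    else y v := ⟨_, rfl⟩
  have hzF : ∑ v ∈ F, z v = ∑ v ∈ F, y v := by
    have e1 : ∑ v ∈ F, z v = ∑ v ∈ F, (if v = v0 then ∑ v ∈ F, y v else 0) := by
      apply Finset.sum_congr rfl
      intro v hv
      rw [hz]
      simp only [hv, if_true]
    rw [e1, Finset.sum_ite_eq' F v0, if_pos hv0]
  have hzsub : ∀ v, v ∉ F → z v = y v := by
    intro v hv
    rw [hz]
    simp only [hv, if_false]
  have hw : Tan F (z - y) := by
    refine ⟨fun v hv => ?_, ?_⟩
    · simp [hzsub v hv]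
    · simp only [Pi.sub_apply, Finset.sum_sub_distrib]
      rw [hzF]
      ring
  have hws : SuppIn (z - y) s := hw.1.mono hFs
  have hwsum : ∑ v ∈ s, (z - y) v = 0 := by rw [hw.1.sum_eq hFs]; exact hw.2
  have hzs : SuppIn z s := by
    intro v hv
    rw [hzsub v (fun h => hv (hFs h))]
    exact hy.1 v hv
  have hzsum : ∑ v ∈ s, z v = 0 := by
    have : ∑ v ∈ s, (z - y) v = ∑ v ∈ s, z v - ∑ v ∈ s, y v := by
      simp only [Pi.sub_apply, Finset.sum_sub_distrib]
    rw [hwsum, hy.2] at this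
    linarith
  have hzz : bil lam s z z = bil lam s y y + bil lam s (z - y) (z - y) := by
    have e1 : z = y + (z - y) := by abel
    have e2 : bil lam s z z = bil lam s (y + (z - y)) (y + (z - y)) := by rw [← e1]
    rw [e2, bil_add_left, bil_add_right, bil_add_right, horth _ hw,
      bil_symm lam hS.symm s (z - y) y, horth _ hw]
    ring
  have hwn : 0 ≤ bil lam s (z - y) (z - y) :=
    le_trans (mul_nonneg hS.c1_pos.le (Finset.sum_nonneg (fun v _ => sq_nonneg ((z - y) v))))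
      (hS.lower s hs _ hws hwsum)
  have hup := hS.upper s hs z hzs hzsum
  have hz2F : ∑ v ∈ F, z v ^ 2 = (∑ v ∈ F, y v) ^ 2 := by
    have e1 : ∑ v ∈ F, z v ^ 2 = ∑ v ∈ F, (if v = v0 then (∑ v ∈ F, y v) ^ 2 else 0) := by
      apply Finset.sum_congr rfl
      intro v hv
      rw [hz]
      simp only [hv, if_true]
      split_ifs <;> simp
    rw [e1, Finset.sum_ite_eq' F v0, if_pos hv0]
  have hg : ∑ v ∈ s \ F, y v = - ∑ v ∈ F, y v := by
    have := Finset.sum_sdiff (f := y) hFs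
    rw [hy.2] at this
    linarith
  have hz2c : ∑ v ∈ s \ F, z v ^ 2 ≤ (∑ v ∈ F, y v) ^ 2 := by
    have e1 : ∑ v ∈ s \ F, z v ^ 2 = ∑ v ∈ s \ F, y v ^ 2 := by
      apply Finset.sum_congr rfl
      intro v hv
      rw [hzsub v (Finset.mem_sdiff.1 hv).2]
    have e2 : ∑ v ∈ s \ F, y v ^ 2 ≤ (∑ v ∈ s \ F, y v) ^ 2 := by
      have hnn : ∀ v ∈ s \ F, 0 ≤ y v := fun v hv => hpos v (Finset.mem_sdiff.1 hv).2
      calc ∑ v ∈ s \ F, y v ^ 2 ≤ ∑ v ∈ s \ F, y v * ∑ u ∈ s \ F, y u := by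
            apply Finset.sum_le_sum
            intro v hv
            rw [sq]
            exact mul_le_mul_of_nonneg_left (Finset.single_le_sum hnn hv) (hnn v hv)
        _ = (∑ v ∈ s \ F, y v) ^ 2 := by rw [← Finset.sum_mul, sq]
    rw [e1]
    refine e2.trans (le_of_eq ?_)
    rw [hg, neg_sq]
  have hz2 : ∑ v ∈ s, z v ^ 2 ≤ 2 * (∑ v ∈ F, y v) ^ 2 := by
    rw [← Finset.sum_sdiff hFs, hz2F]
    linarith
  calc bil lam s y y ≤ bil lam s z z := by rw [hzz]; linarith
    _ ≤ C1 * ∑ v ∈ s, z v ^ 2 := hup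
    _ ≤ C1 * (2 * (∑ v ∈ F, y v) ^ 2) := mul_le_mul_of_nonneg_left hz2 hS.C1_pos.le
    _ = 2 * C1 * (∑ v ∈ F, y v) ^ 2 := by ring

end Pool.Agent.BP
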