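import Pool.Agent.Lib.MP_98022b_b4.Basic

/-!
# Row P2: orthogonal projection to the tangent space of a face

The space `W` of the functions with support in `F` and sum `0` is finite dimensional, the form is positive definite on `W`,
so `W → Dual W` is injective, hence bijective.
-/

set_option autoImplicit false

open Set Filter Topology

namespace Pool.Agent.BP

variable {V : Type}

/-- tangent vectors of the simplex `F` -/
def Tan (F : Finset V) (w : V → ℝ) : Prop := SuppIn w F ∧ ∑ v ∈ F, w v = 0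

private def TanSub (F : Finset V) : Submodule ℝ (V → ℝ) where
  carrier := {w | Tan F w}
  add_mem' := by
    rintro a b ⟨ha, ha'⟩ ⟨hb, hb'⟩
    refine ⟨ha.add hb, ?_⟩
    simp only [Pi.add_apply]
    rw [Finset.sum_add_distrib, ha', hb', add_zero]
  zero_mem' := ⟨fun v _ => rfl, by simp⟩
  smul_mem' := by
    rintro r a ⟨ha, ha'⟩
    refine ⟨ha.smul r, ?_⟩
    simp only [Pi.smul_apply, smul_eq_mul]
    rw [← Finset.mul_sum, ha', mul_zero]

private theorem mem_TanSub {F : Finset V} {w : V → ℝ} : w ∈ TanSub F ↔ Tan F w := Iff.rfl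

private theorem finite_TanSub (F : Finset V) : Module.Finite ℝ (TanSub F) := by
  obtain ⟨f, hf⟩ : ∃ f : TanSub F →ₗ[ℝ] (F → ℝ), ∀ w v, f w v = (w : V → ℝ) v := by
    refine ⟨{ toFun := fun w v => (w : V → ℝ) v, map_add' := ?_, map_smul' := ?_ }, fun _ _ => rfl⟩
    · intro a b
      rfl
    · intro r a
      rfl
  have hinj : Function.Injective f := by
    intro a b hab
    apply Subtype.ext
    funext v
    by_cases hv : v ∈ F
    · have h1 := congrFun hab ⟨v, hv⟩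
      rw [hf, hf] at h1
      exact h1
    · rw [a.2.1 v hv, b.2.1 v hv]
  exact Module.Finite.of_injective f hinj

theorem exists_proj (lam : V → V → ℝ) (hsymm : ∀ u v, lam u v = lam v u) (Ω F : Finset V) (hF : F ⊆ Ω)
    (hpos : ∀ w, Tan F w → w ≠ 0 → 0 < bil lam F w w) :
    ∃ P : (V → ℝ) →ₗ[ℝ] (V → ℝ), (∀ x, Tan F (P x)) ∧
      (∀ x w, Tan F w → bil lam Ω (x - P x) w = 0) ∧
      ∀ x p, Tan F p → (∀ w, Tan F w → bil lam Ω (x - p) w = 0) → P x = p := by
  have := finite_TanSub F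
  obtain ⟨B, hB⟩ : ∃ B : (V → ℝ) →ₗ[ℝ] (V → ℝ) →ₗ[ℝ] ℝ, ∀ a b, B a b = bil lam Ω a b := by
    refine ⟨LinearMap.mk₂ ℝ (fun a b => bil lam Ω a b) ?_ ?_ ?_ ?_, fun a b => rfl⟩
    · intro a a' b; exact bil_add_left lam Ω a a' b
    · intro r a b; exact bil_smul_left lam Ω r a b
    · intro a b b'; exact bil_add_right lam Ω a b b'
    · intro r a b; exact bil_smul_right lam Ω r a b
  -- the functional of a function
  obtain ⟨Φ, hΦ⟩ : ∃ Φ : (V → ℝ) →ₗ[ℝ] Module.Dual ℝ (TanSub F), ∀ x (w : TanSub F),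
      Φ x w = bil lam Ω x w := by
    refine ⟨(LinearMap.lcomp ℝ ℝ (TanSub F).subtype).comp B, ?_⟩
    intro x w
    rw [← hB]
    rfl
  have hd : ∀ w : V → ℝ, Tan F w → bil lam Ω w w = 0 → w = 0 := by
    intro w hw h0
    by_contra hne
    have h1 := hpos w hw hne
    rw [bil_subset lam hF w w hw.1 hw.1] at h0
    exact h1.ne' h0
  obtain ⟨Ψ, hΨ⟩ : ∃ Ψ : TanSub F →ₗ[ℝ] Module.Dual ℝ (TanSub F), ∀ x : TanSub F, Ψ x = Φ x := by
    exact ⟨Φ.comp (TanSub F).subtype, fun x => rfl⟩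
  have hinj : Function.Injective Ψ := by
    rw [← LinearMap.ker_eq_bot, LinearMap.ker_eq_bot']
    intro x hx
    have h1 : Ψ x x = 0 := by rw [hx]; rfl
    rw [hΨ, hΦ] at h1
    exact Subtype.ext (hd x x.2 h1)
  have hrank : Module.finrank ℝ (TanSub F) = Module.finrank ℝ (Module.Dual ℝ (TanSub F)) :=
    (Subspace.dual_finrank_eq).symm
  obtain ⟨E, hE⟩ : ∃ E : TanSub F ≃ₗ[ℝ] Module.Dual ℝ (TanSub F), ∀ x, E x = Ψ x :=
    ⟨LinearEquiv.ofInjectiveOfFinrankEq Ψ hinj hrank, fun x => rfl⟩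
  obtain ⟨P, hP⟩ : ∃ P : (V → ℝ) →ₗ[ℝ] (V → ℝ), ∀ x, P x = (E.symm (Φ x) : TanSub F) :=
    ⟨(TanSub F).subtype.comp (E.symm.toLinearMap.comp Φ), fun x => rfl⟩
  have h2 : ∀ x w, Tan F w → bil lam Ω (x - P x) w = 0 := by
    intro x w hw
    have h3 : E (E.symm (Φ x)) = Φ x := E.apply_symm_apply _
    rw [hE, hΨ, ← hP] at h3
    have h4 : Φ (P x) ⟨w, hw⟩ = Φ x ⟨w, hw⟩ := by rw [h3]
    rw [hΦ, hΦ] at h4
    rw [bil_sub_left, h4]
    exact sub_self _
  have h1 : ∀ x, Tan F (P x) := by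
    intro x
    rw [hP]
    exact (E.symm (Φ x)).2
  refine ⟨P, h1, h2, ?_⟩
  intro x p hp hpw
  have h5 : Tan F (P x - p) := (TanSub F).sub_mem (h1 x) hp
  have h6 : bil lam Ω (P x - p) (P x - p) = 0 := by
    have e : P x - p = (x - p) - (x - P x) := by abel
    have h7 : bil lam Ω (P x - p) (P x - p) = bil lam Ω ((x - p) - (x - P x)) (P x - p) := by
      rw [← e]
    rw [h7, bil_sub_left, hpw _ h5, h2 _ _ h5, sub_zero]
  exact sub_eq_zero.1 (hd _ h5 h6)

end Pool.Agent.BP
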