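import Pool.Agent.Lib.MP_98022b_b4.Proj

/-!
# Row P3: the normal component of a broken geodesic

`F` is a face contained in all carriers on `[a, b]`. `y x` is the component of `c x` orthogonal to the tangent space of `F`
(`y x = (c x - f0) - P (c x - f0)`, `f0` a vertex of `F`, `Ω` = union of the `s i`). The velocity `u i` on the piece `i` is
`(c (t (i+1)) - c (t i)) / (t (i+1) - t i)`, `P (u i)` does not depend on `i` by `cons` (and uniqueness in `exists_proj`);
`e i = u i - P (u i)`. At a break `x = t (i+1)` the vector `w = y x` is tangent to the carrier of `c x`: `cons` for `w = y x`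
gives `B (y x) (e i) = B (y x) (e (i+1))`. So the quadratic polynomial `B (y x) (y x)` is the same on all pieces.
-/

set_option autoImplicit false

open Set Filter Topology

namespace Pool.Agent.BP

variable {V : Type} {faces : Set (Finset V)} {lam : V → V → ℝ} {c : ℝ → V → ℝ} {a b : ℝ} {n : ℕ} {c1 C1 : ℝ}

private theorem tan_mono {F s : Finset V} {w : V → ℝ} (h : Tan F w) (hFs : F ⊆ s) : Tan s w :=
  ⟨h.1.mono hFs, by rw [h.1.sum_eq hFs]; exact h.2⟩

private theorem tan_sub {s : Finset V} {w w' : V → ℝ} (h : Tan s w) (h' : Tan s w') : Tan s (w - w') :=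
  ⟨h.1.sub h'.1, by simp [Finset.sum_sub_distrib, h.2, h'.2]⟩

private theorem tan_smul {s : Finset V} {w : V → ℝ} (r : ℝ) (h : Tan s w) : Tan s (r • w) :=
  ⟨h.1.smul r, by simp [← Finset.mul_sum, h.2]⟩

theorem exists_quad (hS : IsShapes faces lam n c1 C1) (h : Broken faces lam c a b) (F : Finset V)
    (hF : F ∈ faces) (hne : F.Nonempty) (hFc : ∀ x ∈ Icc a b, ∀ v ∈ F, 0 < c x v) (k : ℕ) (t : ℕ → ℝ)
    (s : ℕ → Finset V) (h0 : t 0 = a) (hk : t k = b) (hlt : ∀ i < k, t i < t (i + 1))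
    (hs : ∀ i < k, s i ∈ faces ∧ SuppIn (c (t i)) (s i) ∧ SuppIn (c (t (i + 1))) (s i)) :
    ∃ (y : ℝ → V → ℝ) (e : ℕ → V → ℝ) (σ β κ : ℝ),
      (∀ i < k, ∀ x ∈ Icc (t i) (t (i + 1)), Tan (s i) (y x) ∧ (∀ v, v ∉ F → y x v = c x v) ∧
        (∀ w, Tan F w → bil lam (s i) (y x) w = 0) ∧
        bil lam (s i) (y x) (y x) = σ * x ^ 2 + β * x + κ ∧
        bil lam (s i) (y x) (e i) = σ * x + β / 2 ∧
        ∀ v, y x v = y (t i) v + (x - t i) * e i v) ∧
      ∀ i < k, F ⊆ s i ∧ Tan (s i) (e i) ∧ bil lam (s i) (e i) (e i) = σ := by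
  classical
  obtain ⟨f0, hf0⟩ := hne
  have hmono : ∀ i j, i ≤ j → j ≤ k → t i ≤ t j := by
    intro i j hij
    induction j with
    | zero => intro _; rw [Nat.le_zero.mp hij]
    | succ j ih =>
      intro hj
      rcases Nat.lt_or_ge i (j + 1) with h1 | h1
      · exact (ih (by omega) (by omega)).trans (hlt j (by omega)).le
      · have : i = j + 1 := by omega
        rw [this]
  have htI : ∀ i ≤ k, t i ∈ Icc a b := fun i hi =>
    ⟨h0 ▸ hmono 0 i (Nat.zero_le _) hi, hk ▸ hmono i k hi le_rfl⟩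
  have hxI : ∀ i < k, ∀ x ∈ Icc (t i) (t (i + 1)), x ∈ Icc a b := fun i hi x hx =>
    ⟨(htI i hi.le).1.trans hx.1, hx.2.trans (htI (i + 1) hi).2⟩
  have hcs : ∀ i < k, ∀ x ∈ Icc (t i) (t (i + 1)), SuppIn (c x) (s i) := fun i hi x hx =>
    h.suppIn_of_mem (htI i hi.le) (htI (i + 1) hi) (hlt i hi) (hs i hi).1 (hs i hi).2.1 (hs i hi).2.2 hx
  have hFs : ∀ i < k, F ⊆ s i := by
    intro i hi v hv
    by_contra hne
    have h1 := hFc (t i) (htI i hi.le) v hv
    rw [(hs i hi).2.1 v hne] at h1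
    exact lt_irrefl _ h1
  let Ω : Finset V := F ∪ (Finset.range k).biUnion s
  have hFΩ : F ⊆ Ω := Finset.subset_union_left
  have hsΩ : ∀ i < k, s i ⊆ Ω := fun i hi =>
    (Finset.subset_biUnion_of_mem s (Finset.mem_range.mpr hi)).trans Finset.subset_union_right
  have hpos : ∀ w, Tan F w → w ≠ 0 → 0 < bil lam F w w := by
    intro w hw hw0
    refine lt_of_lt_of_le ?_ (hS.lower F hF w hw.1 hw.2)
    apply mul_pos hS.c1_pos
    obtain ⟨v, hv⟩ : ∃ v, w v ≠ 0 := by
      by_contra hcon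
      push Not at hcon
      exact hw0 (funext hcon)
    have hvF : v ∈ F := by
      by_contra hvF
      exact hv (hw.1 v hvF)
    exact Finset.sum_pos' (fun _ _ => sq_nonneg _) ⟨v, hvF, by positivity⟩
  obtain ⟨P, hP1, hP2, hP3⟩ := exists_proj lam hS.symm Ω F hFΩ hpos
  let u : ℕ → V → ℝ := fun i => (t (i + 1) - t i)⁻¹ • (c (t (i + 1)) - c (t i))
  let g : V → ℝ := fun v => if v = f0 then 1 else 0
  let y : ℝ → V → ℝ := fun x => (c x - g) - P (c x - g)
  let e : ℕ → V → ℝ := fun i => u i - P (u i)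
  have hgF : SuppIn g F := by
    intro v hv
    have : v ≠ f0 := fun hvf => hv (hvf ▸ hf0)
    simp [g, this]
  have hgsum : ∀ i < k, ∑ v ∈ s i, g v = 1 := by
    intro i hi
    simp [g, hFs i hi hf0]
  have hd : ∀ i < k, t (i + 1) - t i ≠ 0 := fun i hi => by
    have := hlt i hi
    intro hc
    linarith
  have hcu : ∀ i < k, ∀ x ∈ Icc (t i) (t (i + 1)), c x - c (t i) = (x - t i) • u i := by
    intro i hi x hx
    funext v
    have h1 := (h.straight (t i) (htI i hi.le) (t (i + 1)) (htI (i + 1) hi) (hlt i hi) (s i) (hs i hi).1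
      (hs i hi).2.1 (hs i hi).2.2).1 x hx v
    simp only [u, Pi.sub_apply, Pi.smul_apply, smul_eq_mul]
    rw [h1]
    ring
  have htanu : ∀ i < k, Tan (s i) (u i) := by
    intro i hi
    apply tan_smul
    refine ⟨(hs i hi).2.2.sub (hs i hi).2.1, ?_⟩
    simp only [Pi.sub_apply, Finset.sum_sub_distrib]
    rw [h.sum_eq_one (htI (i + 1) hi) (hs i hi).2.2, h.sum_eq_one (htI i hi.le) (hs i hi).2.1, sub_self]
  have htane : ∀ i < k, Tan (s i) (e i) := fun i hi =>
    tan_sub (htanu i hi) (tan_mono (hP1 _) (hFs i hi))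
  have htany : ∀ i < k, ∀ x ∈ Icc (t i) (t (i + 1)), Tan (s i) (y x) := by
    intro i hi x hx
    apply tan_sub _ (tan_mono (hP1 _) (hFs i hi))
    refine ⟨(hcs i hi x hx).sub (hgF.mono (hFs i hi)), ?_⟩
    simp only [Pi.sub_apply, Finset.sum_sub_distrib]
    rw [h.sum_eq_one (hxI i hi x hx) (hcs i hi x hx), hgsum i hi, sub_self]
  have hyc : ∀ x, ∀ v, v ∉ F → y x v = c x v := by
    intro x v hv
    simp only [y, Pi.sub_apply, hgF v hv, (hP1 (c x - g)).1 v hv, sub_zero]
  have hye : ∀ i < k, ∀ x ∈ Icc (t i) (t (i + 1)), y x = y (t i) + (x - t i) • e i := by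
    intro i hi x hx
    have h1 := hcu i hi x hx
    have h2 : c x - g = (c (t i) - g) + (x - t i) • u i := by rw [← h1]; abel
    simp only [y, e]
    rw [h2, map_add, map_smul, smul_sub]
    abel
  -- everything in terms of `Ω`
  have hBs : ∀ i < k, ∀ w w' : V → ℝ, SuppIn w (s i) → SuppIn w' (s i) →
      bil lam Ω w w' = bil lam (s i) w w' := fun i hi w w' hw hw' => bil_subset lam (hsΩ i hi) w w' hw hw'
  have hyorth : ∀ x w, Tan F w → bil lam Ω (y x) w = 0 := fun x w hw => hP2 (c x - g) w hw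
  have heorth : ∀ i w, Tan F w → bil lam Ω (e i) w = 0 := fun i w hw => hP2 (u i) w hw
  have hcons : ∀ i, i + 1 < k → ∀ w : V → ℝ, (∀ v, c (t (i + 1)) v = 0 → w v = 0) → Tan (s i) w →
      SuppIn w (s (i + 1)) → bil lam Ω (u i) w = bil lam Ω (u (i + 1)) w := by
    intro i hi w hw hw1 hw2
    have hi' : i < k := by omega
    have h1 := h.cons (t i) (htI i hi'.le) (t (i + 1)) (htI (i + 1) hi.le) (t (i + 1 + 1)) (htI (i + 1 + 1) hi)
      (hlt i hi') (hlt (i + 1) hi) (s i) (hs i hi').1 (s (i + 1)) (hs (i + 1) hi).1 (hs i hi').2.1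
      (hs i hi').2.2 (hs (i + 1) hi).2.1 (hs (i + 1) hi).2.2 w hw hw1.2
    rw [hBs i hi' (u i) w (htanu i hi').1 hw1.1, hBs (i + 1) hi (u (i + 1)) w (htanu (i + 1) hi).1 hw2]
    simp only [u]
    rw [bil_smul_left, bil_smul_left]
    have e1 := hd i hi'
    have e2 := hd (i + 1) hi
    field_simp
    linarith
  have hpu : ∀ i, i + 1 < k → P (u i) = P (u (i + 1)) := by
    intro i hi
    apply hP3 _ _ (hP1 _)
    intro w hw
    have h1 := hcons i hi w (fun v hv => ?_) (tan_mono hw (hFs i (by omega))) (hw.1.mono (hFs (i + 1) hi))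
    · rw [bil_sub_left, h1, ← bil_sub_left]
      exact hP2 _ w hw
    · apply hw.1
      intro hvF
      have := hFc (t (i + 1)) (htI (i + 1) hi.le) v hvF
      rw [hv] at this
      exact lt_irrefl _ this
  have hpu0 : ∀ i, i < k → P (u i) = P (u 0) := by
    intro i
    induction i with
    | zero => intro _; rfl
    | succ i ih => intro hi; rw [← hpu i hi]; exact ih (by omega)
  have huu : ∀ i < k, bil lam Ω (u i) (u i) = 1 := by
    intro i hi
    rw [hBs i hi _ _ (htanu i hi).1 (htanu i hi).1]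
    have h1 := (h.straight (t i) (htI i hi.le) (t (i + 1)) (htI (i + 1) hi) (hlt i hi) (s i) (hs i hi).1
      (hs i hi).2.1 (hs i hi).2.2).2
    simp only [u]
    rw [bil_smul_left, bil_smul_right, h1]
    have := hd i hi
    field_simp
  have hsy := fun x z => bil_symm lam hS.symm Ω x z
  let σ : ℝ := 1 - bil lam Ω (P (u 0)) (P (u 0))
  have hee : ∀ i < k, bil lam Ω (e i) (e i) = σ := by
    intro i hi
    have h1 : bil lam Ω (e i) (P (u i)) = 0 := heorth i _ (hP1 _)
    have h2 : bil lam Ω (e i) (e i) = bil lam Ω (e i) (u i) := by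
      have : bil lam Ω (e i) (u i - P (u i)) = bil lam Ω (e i) (u i) - bil lam Ω (e i) (P (u i)) :=
        bil_sub_right _ _ _ _ _
      rw [h1, sub_zero] at this
      exact this
    have h3 : bil lam Ω (e i) (u i) = bil lam Ω (u i) (u i) - bil lam Ω (P (u i)) (u i) :=
      bil_sub_left _ _ _ _ _
    have h4 : bil lam Ω (u i) (P (u i)) - bil lam Ω (P (u i)) (P (u i)) = 0 := by
      rw [← bil_sub_left]; exact h1
    rw [h2, h3, huu i hi, hsy (P (u i)) (u i)]
    simp only [σ]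
    rw [← hpu0 i hi]
    linarith
  have hBe : ∀ i, i + 1 < k → bil lam Ω (y (t (i + 1))) (e i) = bil lam Ω (y (t (i + 1))) (e (i + 1)) := by
    intro i hi
    have hi' : i < k := by omega
    have hmem : t (i + 1) ∈ Icc (t i) (t (i + 1)) := ⟨(hlt i hi').le, le_rfl⟩
    have hmem' : t (i + 1) ∈ Icc (t (i + 1)) (t (i + 1 + 1)) := ⟨le_rfl, (hlt (i + 1) hi).le⟩
    have h1 := hcons i hi (y (t (i + 1))) (fun v hv => ?_) (htany i hi' _ hmem) (htany (i + 1) hi _ hmem').1
    · have h2 : ∀ j, bil lam Ω (y (t (i + 1))) (e j) = bil lam Ω (u j) (y (t (i + 1))) := by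
        intro j
        have : bil lam Ω (y (t (i + 1))) (u j - P (u j)) = bil lam Ω (y (t (i + 1))) (u j) -
          bil lam Ω (y (t (i + 1))) (P (u j)) := bil_sub_right _ _ _ _ _
        rw [hyorth _ _ (hP1 _), sub_zero, hsy _ (u j)] at this
        exact this
      rw [h2, h2, h1]
    · have hvF : v ∉ F := by
        intro hvF
        have := hFc (t (i + 1)) (htI (i + 1) hi.le) v hvF
        rw [hv] at this
        exact lt_irrefl _ this
      rw [hyc _ v hvF, hv]
  let A : ℕ → ℝ := fun i => bil lam Ω (y (t i)) (y (t i))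
  let Bb : ℕ → ℝ := fun i => bil lam Ω (y (t i)) (e i)
  have hq1 : ∀ i < k, ∀ x ∈ Icc (t i) (t (i + 1)),
      bil lam Ω (y x) (y x) = A i + 2 * (x - t i) * Bb i + (x - t i) ^ 2 * σ := by
    intro i hi x hx
    rw [hye i hi x hx, bil_add_left, bil_add_right, bil_add_right, bil_smul_left, bil_smul_left,
      bil_smul_right, bil_smul_right, hee i hi, hsy (e i) (y (t i))]
    simp only [A, Bb]
    ring
  have hq2 : ∀ i < k, ∀ x ∈ Icc (t i) (t (i + 1)),
      bil lam Ω (y x) (e i) = Bb i + (x - t i) * σ := by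
    intro i hi x hx
    rw [hye i hi x hx, bil_add_left, bil_smul_left, hee i hi]
  have hstep : ∀ i, i < k → 2 * Bb i - 2 * σ * t i = 2 * Bb 0 - 2 * σ * t 0 ∧
      A i - 2 * t i * Bb i + σ * t i ^ 2 = A 0 - 2 * t 0 * Bb 0 + σ * t 0 ^ 2 := by
    intro i
    induction i with
    | zero => intro _; exact ⟨rfl, rfl⟩
    | succ i ih =>
      intro hi
      have hi' : i < k := by omega
      have hmem : t (i + 1) ∈ Icc (t i) (t (i + 1)) := ⟨(hlt i hi').le, le_rfl⟩
      obtain ⟨ih1, ih2⟩ := ih hi'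
      have a1 : A (i + 1) = A i + 2 * (t (i + 1) - t i) * Bb i + (t (i + 1) - t i) ^ 2 * σ :=
        hq1 i hi' _ hmem
      have a2 : Bb (i + 1) = Bb i + (t (i + 1) - t i) * σ := by
        have := hq2 i hi' _ hmem
        rw [hBe i hi] at this
        exact this
      rw [← ih1, ← ih2, a1, a2]
      constructor <;> ring
  refine ⟨y, e, σ, 2 * Bb 0 - 2 * σ * t 0, A 0 - 2 * t 0 * Bb 0 + σ * t 0 ^ 2, ?_, ?_⟩
  · intro i hi x hx
    obtain ⟨s1, s2⟩ := hstep i hi
    have hy := htany i hi x hx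
    refine ⟨hy, hyc x, ?_, ?_, ?_, ?_⟩
    · intro w hw
      rw [← hBs i hi _ _ hy.1 (hw.1.mono (hFs i hi))]
      exact hyorth x w hw
    · rw [← hBs i hi _ _ hy.1 hy.1, hq1 i hi x hx, ← s1, ← s2]
      ring
    · rw [← hBs i hi _ _ hy.1 (htane i hi).1, hq2 i hi x hx, ← s1]
      ring
    · intro v
      rw [hye i hi x hx]
      rfl
  · intro i hi
    refine ⟨hFs i hi, htane i hi, ?_⟩
    rw [← hBs i hi _ _ (htane i hi).1 (htane i hi).1]
    exact hee i hi

end Pool.Agent.BP
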