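import Pool.Agent.Lib.MP_98022b_b4.Theta

/-!
# Row P6: subdivision such that a further vertex stays in the carrier

`split_of_theta`: intermediate value theorem, induction on the number of parts. `exists_subdiv`: parts on which
`K θ` varies by less than `1 / (n + 1)`; at the left end some `ψ_w ≥ 1 / (n + 1)` (the `ψ_w`, `w` in the carrier, have sum `1`).
-/

set_option autoImplicit false

open Set Filter Topology

namespace Pool.Agent.BP

theorem split_of_theta (θ : ℝ → ℝ) (a b : ℝ) (hab : a ≤ b) (hc : ContinuousOn θ (Icc a b))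
    (hm : MonotoneOn θ (Icc a b)) (δ : ℝ) (hδ : 0 < δ) (N : ℕ) (hN : θ b - θ a ≤ N * δ) :
    ∃ t : ℕ → ℝ, t 0 = a ∧ t (N + 1) = b ∧ (∀ i < N + 1, t i ≤ t (i + 1)) ∧
      ∀ i < N + 1, θ (t (i + 1)) - θ (t i) ≤ δ := by
  induction N generalizing a with
  | zero =>
    refine ⟨fun i => if i = 0 then a else b, by simp, by simp, ?_, ?_⟩
    · intro i hi
      have h0 : i = 0 := by omega
      subst h0
      simpa using hab
    · intro i hi
      have h0 : i = 0 := by omega
      subst h0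
      have : θ b - θ a ≤ 0 := by simpa using hN
      simp only [if_true, Nat.zero_add, Nat.one_ne_zero, if_false]
      linarith
  | succ N ih =>
    by_cases hbig : θ b - θ a ≤ δ
    · refine ⟨fun i => if i = 0 then a else b, by simp, by simp, ?_, ?_⟩
      · intro i _
        by_cases h0 : i = 0
        · subst h0
          simpa using hab
        · simp [h0]
      · intro i _
        by_cases h0 : i = 0
        · subst h0
          simpa using hbig
        · simp only [h0, Nat.succ_ne_zero, if_false, sub_self]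
          exact hδ.le
    · push Not at hbig
      have hmem : θ a + δ ∈ Icc (θ a) (θ b) := ⟨by linarith, by linarith⟩
      obtain ⟨a', ha', hθ⟩ := intermediate_value_Icc hab hc hmem
      have hsub : Icc a' b ⊆ Icc a b := Icc_subset_Icc_left ha'.1
      have hN' : θ b - θ a' ≤ N * δ := by
        rw [hθ]
        push_cast at hN
        linarith
      obtain ⟨t, t0, tN, tm, tp⟩ := ih a' ha'.2 (hc.mono hsub) (hm.mono hsub) hN'
      refine ⟨fun i => if i = 0 then a else t (i - 1), by simp, by simpa using tN, ?_, ?_⟩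
      · intro i hi
        by_cases h0 : i = 0
        · subst h0
          simpa [t0] using ha'.1
        · obtain ⟨j, rfl⟩ := Nat.exists_eq_succ_of_ne_zero h0
          simpa using tm j (by omega)
      · intro i hi
        by_cases h0 : i = 0
        · subst h0
          simp [t0, hθ]
        · obtain ⟨j, rfl⟩ := Nat.exists_eq_succ_of_ne_zero h0
          simpa using tp j (by omega)

/-- at every point some vertex outside `F` carries at least `1 / (n + 1)` of the mass outside `F` -/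
theorem exists_heavy {V : Type} (n : ℕ) (c1 C1 : ℝ) (faces : Set (Finset V))
    (lam : V → V → ℝ) (c : ℝ → V → ℝ) (a b : ℝ) (F : Finset V) (hS : IsShapes faces lam n c1 C1)
    (hB : Broken faces lam c a b) (x : ℝ) (hx : x ∈ Icc a b) (hF : ∀ v ∈ F, 0 < c x v)
    (hw : ∃ v, v ∉ F ∧ 0 < c x v) :
    0 < 1 - ∑ v ∈ F, c x v ∧ ∃ w, w ∉ F ∧ 1 / (n + 1 : ℝ) ≤ c x w / (1 - ∑ v ∈ F, c x v) := by
  classical
  obtain ⟨s, hs, h1, h2⟩ := hB.carrier x hx
  have hFs : F ⊆ s := fun v hv => (h1 v).mp (hF v hv)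
  have hsplit : ∑ v ∈ s \ F, c x v = 1 - ∑ v ∈ F, c x v := by
    have := Finset.sum_sdiff (f := fun v => c x v) hFs
    linarith
  obtain ⟨w0, hw0, hw0p⟩ := hw
  have hw0s : w0 ∈ s \ F := Finset.mem_sdiff.mpr ⟨(h1 w0).mp hw0p, hw0⟩
  have hg : 0 < 1 - ∑ v ∈ F, c x v := by
    rw [← hsplit]
    exact lt_of_lt_of_le hw0p
      (Finset.single_le_sum (f := fun v => c x v) (fun v _ => hB.nonneg x hx v) hw0s)
  refine ⟨hg, ?_⟩
  have hn : (0 : ℝ) < n + 1 := by positivity
  by_contra hno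
  push Not at hno
  have hlt : ∀ v ∈ s \ F, c x v < 1 / (n + 1 : ℝ) * (1 - ∑ v ∈ F, c x v) := by
    intro v hv
    have := hno v (Finset.mem_sdiff.mp hv).2
    rwa [div_lt_iff₀ hg] at this
  have hsum : ∑ v ∈ s \ F, c x v < ∑ _v ∈ s \ F, 1 / (n + 1 : ℝ) * (1 - ∑ v ∈ F, c x v) :=
    Finset.sum_lt_sum_of_nonempty ⟨w0, hw0s⟩ hlt
  rw [Finset.sum_const, nsmul_eq_mul, hsplit] at hsum
  have hcard : (((s \ F).card : ℕ) : ℝ) ≤ n + 1 := by
    have h3 : (s \ F).card ≤ s.card := Finset.card_le_card Finset.sdiff_subset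
    have h4 := hS.card_le s hs
    exact_mod_cast h3.trans h4
  have h5 : (((s \ F).card : ℕ) : ℝ) * (1 / (n + 1 : ℝ) * (1 - ∑ v ∈ F, c x v)) ≤
      (n + 1) * (1 / (n + 1 : ℝ) * (1 - ∑ v ∈ F, c x v)) := by
    apply mul_le_mul_of_nonneg_right hcard
    positivity
  have h6 : (n + 1 : ℝ) * (1 / (n + 1 : ℝ) * (1 - ∑ v ∈ F, c x v)) = 1 - ∑ v ∈ F, c x v := by
    field_simp
  linarith

theorem exists_subdiv (n : ℕ) (c1 C1 : ℝ) : ∃ M : ℕ, ∀ {V : Type} (faces : Set (Finset V))
    (lam : V → V → ℝ) (c : ℝ → V → ℝ) (a b : ℝ) (F : Finset V), IsShapes faces lam n c1 C1 → a < b →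
    Broken faces lam c a b → F ∈ faces → F.Nonempty → (∀ x ∈ Icc a b, ∀ v ∈ F, 0 < c x v) →
    (∀ x ∈ Icc a b, ∃ v, v ∉ F ∧ 0 < c x v) →
    ∃ t : ℕ → ℝ, t 0 = a ∧ t M = b ∧ (∀ i < M, t i ≤ t (i + 1)) ∧
      ∀ i < M, ∃ w, w ∉ F ∧ ∀ x ∈ Icc (t i) (t (i + 1)), 0 < c x w := by
  obtain ⟨K, hK, hθ⟩ := exists_theta n c1 C1
  have hn : (0 : ℝ) < n + 1 := by positivity
  set δ : ℝ := 1 / (2 * (n + 1) * K) with hδdef
  have hδ : 0 < δ := by positivity
  obtain ⟨N, hN⟩ := exists_nat_ge (4 / δ)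
  refine ⟨N + 1, ?_⟩
  intro V faces lam c a b F hS hab hB hFf hFn hF hw
  obtain ⟨θ, hcont, hmono, h4, hlip⟩ := hθ faces lam c a b F hS hab hB hFf hFn hF hw
  have hN' : θ b - θ a ≤ N * δ := by
    rw [div_le_iff₀ hδ] at hN
    linarith
  obtain ⟨t, t0, tN, tm, tp⟩ := split_of_theta θ a b hab.le hcont hmono δ hδ N hN'
  refine ⟨t, t0, tN, tm, ?_⟩
  have hlow : ∀ i, i ≤ N + 1 → a ≤ t i := by
    intro i
    induction i with
    | zero => intro _; exact t0.ge
    | succ i ih => intro hi; exact (ih (by omega)).trans (tm i (by omega))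
  have hup : ∀ j, j ≤ N + 1 → t (N + 1 - j) ≤ b := by
    intro j
    induction j with
    | zero => intro _; simpa using tN.le
    | succ j ih =>
      intro hj
      have h1 := tm (N + 1 - (j + 1)) (by omega)
      have h2 : N + 1 - (j + 1) + 1 = N + 1 - j := by omega
      rw [h2] at h1
      exact h1.trans (ih (by omega))
  have hmem : ∀ i, i ≤ N + 1 → t i ∈ Icc a b := by
    intro i hi
    refine ⟨hlow i hi, ?_⟩
    have := hup (N + 1 - i) (by omega)
    have h3 : N + 1 - (N + 1 - i) = i := by omega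
    rwa [h3] at this
  intro i hi
  have hi0 := hmem i (by omega)
  have hi1 := hmem (i + 1) (by omega)
  obtain ⟨_, w, hwF, hwψ⟩ := exists_heavy n c1 C1 faces lam c a b F hS hB (t i) hi0
    (hF _ hi0) (hw _ hi0)
  refine ⟨w, hwF, ?_⟩
  intro x hx
  have hxm : x ∈ Icc a b := ⟨hi0.1.trans hx.1, hx.2.trans hi1.2⟩
  obtain ⟨hgx, _⟩ := exists_heavy n c1 C1 faces lam c a b F hS hB x hxm (hF _ hxm) (hw _ hxm)
  have h5 := hlip w hwF (t i) hi0 x hxm hx.1
  have h6 : θ x ≤ θ (t (i + 1)) := hmono hxm hi1 hx.2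
  have h7 := tp i hi
  have h8 : K * (θ x - θ (t i)) ≤ K * δ := mul_le_mul_of_nonneg_left (by linarith) hK.le
  have h9 : K * δ = 1 / (n + 1 : ℝ) / 2 := by
    rw [hδdef]
    field_simp
  have h10 : 0 < 1 / (n + 1 : ℝ) := by positivity
  have h11 := (abs_le.mp h5).1
  have h12 : 0 < c x w / (1 - ∑ v ∈ F, c x v) := by linarith
  exact (div_pos_iff_of_pos_right hgx).mp h12

end Pool.Agent.BP
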