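import Pool.Agent.Lib.MP_98022b_b4.Finite
import Pool.Agent.Lib.MP_98022b_b4.Quad
import Pool.Agent.Lib.MP_98022b_b4.Gram

/-!
# Row P5: the normalised coordinates are Lipschitz functions of an angle

From `exists_pieces`, `exists_quad`: `ρ x = σ x^2 + β x + κ = B (y x) (y x)`, `Δ = σ κ - β^2/4 = B y y B e e - (B y e)^2 ≥ 0`.
`g x = 1 - ∑ v ∈ F, c x v = ∑ v ∉ F, c x v = - ∑ v ∈ F, y x v` (`y x` has sum `0` on `s i`). By `gram` with
`l1 = (value at w)`, `l2 = - (sum over F)`, `K = (n + 1) / c1` the Wronskian `w' g - w g'` is at most `2 K sqrt Δ` on every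
piece, by `normal_le` `g ^ 2 ≥ ρ / (2 C1)`. `θ x = arctan ((σ x + β / 2) / sqrt Δ)` if `Δ > 0` (then `θ' = sqrt Δ / ρ`),
`θ = 0` if `Δ = 0`. On every piece the increment of `ψ_w` is `W (x' - x) / (g x g x')`, and
`sin (θ x' - θ x) = sqrt Δ (x' - x) / sqrt (ρ x ρ x')`.
-/

set_option autoImplicit false

open Set Filter Topology

namespace Pool.Agent.BP

private theorem angle_ineq (σ β κ x x' Δ C g g' : ℝ) (hΔ : Δ = σ * κ - β ^ 2 / 4) (hpos : 0 < Δ) (hσ : 0 < σ)
    (hxx : x ≤ x') (hg : 0 < g) (hg' : 0 < g') (hC : 0 < C) (h1 : σ * x ^ 2 + β * x + κ ≤ C * g ^ 2)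
    (h2 : σ * x' ^ 2 + β * x' + κ ≤ C * g' ^ 2) :
    Real.sqrt Δ * (x' - x) ≤ C * g * g' *
      (Real.arctan ((σ * x' + β / 2) / Real.sqrt Δ) - Real.arctan ((σ * x + β / 2) / Real.sqrt Δ)) := by
  set D := Real.sqrt Δ with hD
  have hDpos : 0 < D := Real.sqrt_pos.mpr hpos
  have hDD : D ^ 2 = Δ := Real.sq_sqrt hpos.le
  set u := (σ * x + β / 2) / D with hu
  set u' := (σ * x' + β / 2) / D with hu'
  have huu : u ≤ u' := by
    rw [hu, hu']
    apply div_le_div_of_nonneg_right _ hDpos.le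
    nlinarith
  have hz : 0 ≤ Real.arctan u' - Real.arctan u := by
    have := Real.arctan_strictMono.monotone huu
    linarith
  have hsin : Real.sin (Real.arctan u' - Real.arctan u) ≤ Real.arctan u' - Real.arctan u := Real.sin_le hz
  have hA : 0 < Real.sqrt (1 + u ^ 2) := Real.sqrt_pos.mpr (by positivity)
  have hA' : 0 < Real.sqrt (1 + u' ^ 2) := Real.sqrt_pos.mpr (by positivity)
  have hid : Real.sin (Real.arctan u' - Real.arctan u) * (Real.sqrt (1 + u ^ 2) * Real.sqrt (1 + u' ^ 2)) =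
      u' - u := by
    rw [Real.sin_sub, Real.sin_arctan, Real.sin_arctan, Real.cos_arctan, Real.cos_arctan]
    field_simp
  have key : ∀ z G : ℝ, 0 < G → σ * z ^ 2 + β * z + κ ≤ C * G ^ 2 →
      Real.sqrt (1 + ((σ * z + β / 2) / D) ^ 2) ≤ Real.sqrt (σ * C) / D * G := by
    intro z G hG hz
    apply Real.sqrt_le_iff.mpr
    refine ⟨by positivity, ?_⟩
    have e0 : Real.sqrt (σ * C) ^ 2 = σ * C := Real.sq_sqrt (by positivity)
    rw [mul_pow, div_pow, div_pow, hDD, e0]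
    have e1 : 1 + (σ * z + β / 2) ^ 2 / Δ = (Δ + (σ * z + β / 2) ^ 2) / Δ := by field_simp
    have e2 : σ * C / Δ * G ^ 2 = (σ * C * G ^ 2) / Δ := by ring
    rw [e1, e2]
    apply div_le_div_of_nonneg_right _ hpos.le
    have e3 : Δ + (σ * z + β / 2) ^ 2 = σ * (σ * z ^ 2 + β * z + κ) := by rw [hΔ]; ring
    rw [e3]
    calc σ * (σ * z ^ 2 + β * z + κ) ≤ σ * (C * G ^ 2) := mul_le_mul_of_nonneg_left hz hσ.le
      _ = σ * C * G ^ 2 := by ring
  have k1 := key x g hg h1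
  have k2 := key x' g' hg' h2
  have hprod : Real.sqrt (1 + u ^ 2) * Real.sqrt (1 + u' ^ 2) ≤ σ * C / Δ * (g * g') := by
    have : (Real.sqrt (σ * C) / D * g) * (Real.sqrt (σ * C) / D * g') = σ * C / Δ * (g * g') := by
      have e4 : Real.sqrt (σ * C) * Real.sqrt (σ * C) = σ * C := Real.mul_self_sqrt (by positivity)
      calc (Real.sqrt (σ * C) / D * g) * (Real.sqrt (σ * C) / D * g')
          = (Real.sqrt (σ * C) * Real.sqrt (σ * C)) / D ^ 2 * (g * g') := by field_simp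
        _ = σ * C / Δ * (g * g') := by rw [e4, hDD]
    rw [← this]
    exact mul_le_mul k1 k2 hA'.le (by positivity)
  have h3 : u' - u ≤ (Real.arctan u' - Real.arctan u) * (σ * C / Δ * (g * g')) := by
    rw [← hid]
    calc Real.sin (Real.arctan u' - Real.arctan u) * (Real.sqrt (1 + u ^ 2) * Real.sqrt (1 + u' ^ 2))
        ≤ (Real.arctan u' - Real.arctan u) * (Real.sqrt (1 + u ^ 2) * Real.sqrt (1 + u' ^ 2)) :=
          mul_le_mul_of_nonneg_right hsin (by positivity)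
      _ ≤ (Real.arctan u' - Real.arctan u) * (σ * C / Δ * (g * g')) := mul_le_mul_of_nonneg_left hprod hz
  have h4 : u' - u = σ * (x' - x) / D := by
    rw [hu, hu']
    field_simp
    ring
  rw [h4] at h3
  have h5 : Δ / σ * (σ * (x' - x) / D) = D * (x' - x) := by
    rw [← hDD]
    field_simp
  have h6 : Δ / σ * ((Real.arctan u' - Real.arctan u) * (σ * C / Δ * (g * g'))) =
      C * g * g' * (Real.arctan u' - Real.arctan u) := by
    field_simp
  rw [← h5, ← h6]
  exact mul_le_mul_of_nonneg_left h3 (by positivity)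

/-- the estimate for the coordinate and for the sum over `F` -/
private theorem coord_bounds {V : Type} {faces : Set (Finset V)} {lam : V → V → ℝ} {n : ℕ} {c1 C1 : ℝ}
    (hS : IsShapes faces lam n c1 C1) {s F : Finset V} (hs : s ∈ faces) (hFs : F ⊆ s) (w : V)
    (x : V → ℝ) (hx : Tan s x) :
    x w ^ 2 ≤ ((n : ℝ) + 1) / c1 * bil lam s x x ∧ (∑ v ∈ F, x v) ^ 2 ≤ ((n : ℝ) + 1) / c1 * bil lam s x x := by
  have hc := hS.c1_pos
  have hlow := hS.lower s hs x hx.1 hx.2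
  have hnn : 0 ≤ ∑ v ∈ s, x v ^ 2 := Finset.sum_nonneg (fun v _ => sq_nonneg _)
  have hbil : ∑ v ∈ s, x v ^ 2 ≤ bil lam s x x / c1 := by
    rw [le_div_iff₀ hc]; linarith
  have hb0 : 0 ≤ bil lam s x x / c1 := hnn.trans hbil
  have e1 : ((n : ℝ) + 1) / c1 * bil lam s x x = ((n : ℝ) + 1) * (bil lam s x x / c1) := by ring
  rw [e1]
  have hn : (0 : ℝ) ≤ n := Nat.cast_nonneg n
  constructor
  · have : x w ^ 2 ≤ ∑ v ∈ s, x v ^ 2 := by
      by_cases hw : w ∈ s
      · exact Finset.single_le_sum (f := fun v => x v ^ 2) (fun v _ => sq_nonneg _) hw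
      · rw [hx.1 w hw]; simpa using hnn
    nlinarith
  · have h1 : (∑ v ∈ F, x v) ^ 2 ≤ (F.card : ℝ) * ∑ v ∈ F, x v ^ 2 := sq_sum_le_card_mul_sum_sq
    have h2 : ∑ v ∈ F, x v ^ 2 ≤ ∑ v ∈ s, x v ^ 2 :=
      Finset.sum_le_sum_of_subset_of_nonneg hFs (fun v _ _ => sq_nonneg _)
    have h3 : (F.card : ℝ) ≤ (n : ℝ) + 1 := by
      have := (Finset.card_le_card hFs).trans (hS.card_le s hs)
      exact_mod_cast this
    calc (∑ v ∈ F, x v) ^ 2 ≤ (F.card : ℝ) * ∑ v ∈ F, x v ^ 2 := h1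
      _ ≤ ((n : ℝ) + 1) * (bil lam s x x / c1) :=
          mul_le_mul h3 (h2.trans hbil) (Finset.sum_nonneg (fun v _ => sq_nonneg _)) (by linarith)

theorem exists_theta (n : ℕ) (c1 C1 : ℝ) : ∃ K : ℝ, 0 < K ∧ ∀ {V : Type} (faces : Set (Finset V))
    (lam : V → V → ℝ) (c : ℝ → V → ℝ) (a b : ℝ) (F : Finset V), IsShapes faces lam n c1 C1 → a < b →
    Broken faces lam c a b → F ∈ faces → F.Nonempty → (∀ x ∈ Icc a b, ∀ v ∈ F, 0 < c x v) →
    (∀ x ∈ Icc a b, ∃ v, v ∉ F ∧ 0 < c x v) →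
    ∃ θ : ℝ → ℝ, ContinuousOn θ (Icc a b) ∧ MonotoneOn θ (Icc a b) ∧ θ b - θ a ≤ 4 ∧
      ∀ w, w ∉ F → ∀ x ∈ Icc a b, ∀ y ∈ Icc a b, x ≤ y →
        |c y w / (1 - ∑ v ∈ F, c y v) - c x w / (1 - ∑ v ∈ F, c x v)| ≤ K * (θ y - θ x) := by
  classical
  refine ⟨|2 * (((n : ℝ) + 1) / c1) * (2 * C1)| + 1, by positivity, ?_⟩
  intro V faces lam c a b F hS hab h hF hne hFc hex
  obtain ⟨k, t, s, h0, hk, hlt, hs⟩ := h.exists_pieces hab
  obtain ⟨y, e, σ, β, κ, hq, he⟩ := exists_quad hS h F hF hne hFc k t s h0 hk hlt hs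
  have hc := hS.c1_pos
  have hC := hS.C1_pos
  have hn : (0 : ℝ) ≤ n := Nat.cast_nonneg n
  set K0 : ℝ := ((n : ℝ) + 1) / c1 with hK0
  have hK0pos : 0 < K0 := by positivity
  set K : ℝ := |2 * K0 * (2 * C1)| + 1 with hKdef
  have hKge : 2 * K0 * (2 * C1) ≤ K := (le_abs_self _).trans (by linarith)
  have hKpos : 0 < K := by positivity
  set Δ : ℝ := σ * κ - β ^ 2 / 4 with hΔ
  -- the subdivision points are in the interval
  have hta : ∀ i, i ≤ k → a ≤ t i := by
    intro i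
    induction i with
    | zero => intro _; rw [h0]
    | succ i ih => intro hi; exact (ih (by omega)).trans (hlt i (by omega)).le
  have htb : ∀ j, j ≤ k → t (k - j) ≤ b := by
    intro j
    induction j with
    | zero => intro _; rw [Nat.sub_zero, hk]
    | succ j ih =>
      intro hj
      have h1 := hlt (k - (j + 1)) (by omega)
      have h2 : k - (j + 1) + 1 = k - j := by omega
      rw [h2] at h1
      exact h1.le.trans (ih (by omega))
  have htb' : ∀ i, i ≤ k → t i ≤ b := by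
    intro i hi
    have := htb (k - i) (by omega)
    rwa [Nat.sub_sub_self hi] at this
  have hkpos : 0 < k := by
    rcases Nat.eq_zero_or_pos k with hk0 | hk0
    · rw [hk0, h0] at hk; exact absurd hk hab.ne
    · exact hk0
  have hmem : ∀ i, i < k → ∀ x ∈ Icc (t i) (t (i + 1)), x ∈ Icc a b := fun i hi x hx =>
    ⟨(hta i hi.le).trans hx.1, hx.2.trans (htb' (i + 1) hi)⟩
  -- the normalising function
  have hg : ∀ i, i < k → ∀ x ∈ Icc (t i) (t (i + 1)), 1 - ∑ v ∈ F, c x v = - ∑ v ∈ F, y x v := by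
    intro i hi x hx
    obtain ⟨hT, hyc, _⟩ := hq i hi x hx
    obtain ⟨hFs, _⟩ := he i hi
    have hsup : SuppIn (c x) (s i) :=
      h.suppIn_of_mem (hmem i hi (t i) ⟨le_rfl, (hlt i hi).le⟩) (hmem i hi (t (i + 1)) ⟨(hlt i hi).le, le_rfl⟩)
        (hlt i hi) (hs i hi).1 (hs i hi).2.1 (hs i hi).2.2 hx
    have h1 := h.sum_eq_one (hmem i hi x hx) hsup
    have h2 := hT.2
    rw [← Finset.sum_sdiff hFs] at h1 h2
    have h3 : ∑ v ∈ s i \ F, y x v = ∑ v ∈ s i \ F, c x v :=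
      Finset.sum_congr rfl (fun v hv => hyc v (Finset.mem_sdiff.mp hv).2)
    rw [h3] at h2
    linarith
  have hcov : ∀ x ∈ Icc a b, ∃ i, i < k ∧ x ∈ Icc (t i) (t (i + 1)) := by
    intro x hx
    have hex2 : ∃ j, j ≤ k ∧ x ≤ t j := ⟨k, le_rfl, by rw [hk]; exact hx.2⟩
    have hj := Nat.find_spec hex2
    have hmin := fun m (hm : m < Nat.find hex2) => Nat.find_min hex2 hm
    set j := Nat.find hex2 with hjdef
    rcases Nat.eq_zero_or_pos j with hj0 | hj0
    · refine ⟨0, hkpos, ?_, ?_⟩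
      · rw [h0]; exact hx.1
      · have : x ≤ t 0 := by rw [← hj0]; exact hj.2
        exact this.trans (hlt 0 hkpos).le
    · refine ⟨j - 1, by omega, ?_, ?_⟩
      · have := hmin (j - 1) (by omega)
        by_contra hcon
        exact this ⟨by omega, (not_le.mp hcon).le⟩
      · have : j - 1 + 1 = j := by omega
        rw [this]; exact hj.2
  have hgpos : ∀ x ∈ Icc a b, 0 < 1 - ∑ v ∈ F, c x v := by
    intro x hx
    obtain ⟨sx, hsx, h1, h2⟩ := h.carrier x hx
    obtain ⟨v, hvF, hv⟩ := hex x hx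
    have hFsx : F ⊆ sx := fun u hu => (h1 u).mp (hFc x hx u hu)
    have hvs : v ∈ sx \ F := Finset.mem_sdiff.mpr ⟨(h1 v).mp hv, hvF⟩
    rw [← h2, ← Finset.sum_sdiff hFsx]
    have : c x v ≤ ∑ u ∈ sx \ F, c x u :=
      Finset.single_le_sum (f := fun u => c x u) (fun u _ => h.nonneg x hx u) hvs
    linarith
  -- the Wronskian
  have hW : ∀ i, i < k → ∀ w, (e i w * (- ∑ v ∈ F, y (t i) v) - y (t i) w * (- ∑ v ∈ F, e i v)) ^ 2 ≤
      4 * K0 ^ 2 * Δ := by
    intro i hi w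
    obtain ⟨hFs, hTe, hBee⟩ := he i hi
    obtain ⟨hT, _, _, hB, hBye, _⟩ := hq i hi (t i) ⟨le_rfl, (hlt i hi).le⟩
    have hgr := gram hS (hs i hi).1 (LinearMap.proj w) (-∑ v ∈ F, LinearMap.proj v) K0 hK0pos.le
      (fun x hx => by
        simpa using (coord_bounds hS (hs i hi).1 hFs w x hx).1)
      (fun x hx => by
        have := (coord_bounds hS (hs i hi).1 hFs w x hx).2
        simpa [LinearMap.neg_apply, LinearMap.sum_apply] using this) (y (t i)) (e i) hT hTe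
    have e1 : bil lam (s i) (y (t i)) (y (t i)) * bil lam (s i) (e i) (e i) -
        bil lam (s i) (y (t i)) (e i) ^ 2 = Δ := by
      rw [hB, hBye, hBee, hΔ]; ring
    rw [e1] at hgr
    simpa [LinearMap.neg_apply, LinearMap.sum_apply] using hgr
  -- the lower bound of g
  have hgl : ∀ x ∈ Icc a b, σ * x ^ 2 + β * x + κ ≤ 2 * C1 * (1 - ∑ v ∈ F, c x v) ^ 2 := by
    intro x hx
    obtain ⟨i, hi, hxi⟩ := hcov x hx
    obtain ⟨hT, hyc, hort, hB, _⟩ := hq i hi x hxi
    have := normal_le hS (hs i hi).1 (he i hi).1 hne (y x) hT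
      (fun v hv => by rw [hyc v hv]; exact h.nonneg x hx v) hort
    rw [hB] at this
    rw [hg i hi x hxi]
    calc σ * x ^ 2 + β * x + κ ≤ 2 * C1 * (∑ v ∈ F, y x v) ^ 2 := this
      _ = 2 * C1 * (-∑ v ∈ F, y x v) ^ 2 := by ring
  -- the increment of the normalised coordinate
  have hinc : ∀ i, i < k → ∀ w, w ∉ F → ∀ x ∈ Icc (t i) (t (i + 1)), ∀ x' ∈ Icc (t i) (t (i + 1)), x ≤ x' →
      |c x' w / (1 - ∑ v ∈ F, c x' v) - c x w / (1 - ∑ v ∈ F, c x v)| *
        ((1 - ∑ v ∈ F, c x v) * (1 - ∑ v ∈ F, c x' v)) ≤ 2 * K0 * Real.sqrt Δ * (x' - x) := by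
    intro i hi w hw x hx x' hx' hxx
    have gp := hgpos x (hmem i hi x hx)
    have gp' := hgpos x' (hmem i hi x' hx')
    obtain ⟨_, hyc, _, _, _, hlin⟩ := hq i hi x hx
    obtain ⟨_, hyc', _, _, _, hlin'⟩ := hq i hi x' hx'
    have hΔW := hW i hi w
    have hWabs : |e i w * (- ∑ v ∈ F, y (t i) v) - y (t i) w * (- ∑ v ∈ F, e i v)| ≤ 2 * K0 * Real.sqrt Δ := by
      have hΔ0 : 0 ≤ Δ := by
        have h4 : 0 ≤ 4 * K0 ^ 2 * Δ := (sq_nonneg _).trans hΔW
        by_contra hneg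
        have : 4 * K0 ^ 2 * Δ < 0 := mul_neg_of_pos_of_neg (by positivity) (not_le.mp hneg)
        linarith
      apply abs_le_of_sq_le_sq _ (by positivity)
      rw [mul_pow, mul_pow, Real.sq_sqrt hΔ0]
      calc _ ≤ 4 * K0 ^ 2 * Δ := hΔW
        _ = 2 ^ 2 * K0 ^ 2 * Δ := by ring
    set W := e i w * (- ∑ v ∈ F, y (t i) v) - y (t i) w * (- ∑ v ∈ F, e i v) with hWdef
    have hcx : c x w = y (t i) w + (x - t i) * e i w := by rw [← hyc w hw]; exact hlin w
    have hcx' : c x' w = y (t i) w + (x' - t i) * e i w := by rw [← hyc' w hw]; exact hlin' w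
    have hgx : 1 - ∑ v ∈ F, c x v = - ∑ v ∈ F, y (t i) v + (x - t i) * (- ∑ v ∈ F, e i v) := by
      rw [hg i hi x hx, Finset.sum_congr rfl (fun v _ => hlin v), Finset.sum_add_distrib, ← Finset.mul_sum]
      ring
    have hgx' : 1 - ∑ v ∈ F, c x' v = - ∑ v ∈ F, y (t i) v + (x' - t i) * (- ∑ v ∈ F, e i v) := by
      rw [hg i hi x' hx', Finset.sum_congr rfl (fun v _ => hlin' v), Finset.sum_add_distrib, ← Finset.mul_sum]
      ring
    set G := 1 - ∑ v ∈ F, c x v with hG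
    set G' := 1 - ∑ v ∈ F, c x' v with hG'
    have hnum : c x' w * G - c x w * G' = W * (x' - x) := by
      rw [hcx, hcx', hgx, hgx', hWdef]; ring
    have hprod : (c x' w / G' - c x w / G) * (G * G') = W * (x' - x) := by
      rw [← hnum]; field_simp
    have habs : |c x' w / G' - c x w / G| * (G * G') = |W| * (x' - x) := by
      have h1 := congrArg abs hprod
      rw [abs_mul _ (G * G'), abs_mul W (x' - x), abs_of_pos (mul_pos gp gp'),
        abs_of_nonneg (sub_nonneg.mpr hxx)] at h1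
      exact h1
    rw [habs]
    exact mul_le_mul_of_nonneg_right hWabs (by linarith)
  -- gluing
  have glue : ∀ (θ : ℝ → ℝ) (w : V), (∀ i, i < k → ∀ x ∈ Icc (t i) (t (i + 1)), ∀ x' ∈ Icc (t i) (t (i + 1)),
      x ≤ x' → |c x' w / (1 - ∑ v ∈ F, c x' v) - c x w / (1 - ∑ v ∈ F, c x v)| ≤ K * (θ x' - θ x)) →
      ∀ x ∈ Icc a b, ∀ x' ∈ Icc a b, x ≤ x' →
        |c x' w / (1 - ∑ v ∈ F, c x' v) - c x w / (1 - ∑ v ∈ F, c x v)| ≤ K * (θ x' - θ x) := by
    intro θ w hp
    have hind : ∀ m, m ≤ k → ∀ x ∈ Icc a (t m), ∀ x' ∈ Icc a (t m), x ≤ x' →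
        |c x' w / (1 - ∑ v ∈ F, c x' v) - c x w / (1 - ∑ v ∈ F, c x v)| ≤ K * (θ x' - θ x) := by
      intro m
      induction m with
      | zero =>
        intro _ x hx x' hx' _
        rw [h0] at hx hx'
        have h1 : x = a := le_antisymm hx.2 hx.1
        have h2 : x' = a := le_antisymm hx'.2 hx'.1
        rw [h1, h2]; simp
      | succ m ih =>
        intro hm x hx x' hx' hxx
        rcases le_total x' (t m) with h1 | h1
        · exact ih (by omega) x ⟨hx.1, hxx.trans h1⟩ x' ⟨hx'.1, h1⟩ hxx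
        · rcases le_total (t m) x with h2 | h2
          · exact hp m (by omega) x ⟨h2, hx.2⟩ x' ⟨h1, hx'.2⟩ hxx
          · have i1 := ih (by omega) x ⟨hx.1, h2⟩ (t m) ⟨hta m (by omega), le_rfl⟩ h2
            have i2 := hp m (by omega) (t m) ⟨le_rfl, (hlt m (by omega)).le⟩ x' ⟨h1, hx'.2⟩ h1
            have i3 := abs_sub_le (c x' w / (1 - ∑ v ∈ F, c x' v)) (c (t m) w / (1 - ∑ v ∈ F, c (t m) v))
              (c x w / (1 - ∑ v ∈ F, c x v))
            calc _ ≤ _ := i3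
              _ ≤ K * (θ x' - θ (t m)) + K * (θ (t m) - θ x) := add_le_add i2 i1
              _ = K * (θ x' - θ x) := by ring
    have := hind k le_rfl
    rw [hk] at this
    exact this
  obtain ⟨w0, hw0⟩ := hne
  have hΔ0 : 0 ≤ Δ := by
    have h4 : 0 ≤ 4 * K0 ^ 2 * Δ := (sq_nonneg _).trans (hW 0 hkpos w0)
    by_contra hneg
    have : 4 * K0 ^ 2 * Δ < 0 := mul_neg_of_pos_of_neg (by positivity) (not_le.mp hneg)
    linarith
  rcases hΔ0.eq_or_lt with hzero | hΔpos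
  · refine ⟨fun _ => 0, continuousOn_const, fun _ _ _ _ _ => le_rfl, by norm_num, ?_⟩
    intro w hw
    refine glue (fun _ => 0) w ?_
    intro i hi x hx x' hx' hxx
    have h1 := hinc i hi w hw x hx x' hx' hxx
    rw [← hzero, Real.sqrt_zero, mul_zero, zero_mul] at h1
    have gp := hgpos x (hmem i hi x hx)
    have gp' := hgpos x' (hmem i hi x' hx')
    have h2 : |c x' w / (1 - ∑ v ∈ F, c x' v) - c x w / (1 - ∑ v ∈ F, c x v)| ≤ 0 := by
      by_contra hcon
      have := mul_pos (not_le.mp hcon) (mul_pos gp gp')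
      linarith
    simpa using h2
  · have hσ0 : 0 ≤ σ := by
      have h1 := hS.lower (s 0) (hs 0 hkpos).1 (e 0) (he 0 hkpos).2.1.1 (he 0 hkpos).2.1.2
      rw [(he 0 hkpos).2.2] at h1
      exact (mul_nonneg hc.le (Finset.sum_nonneg (fun v _ => sq_nonneg _))).trans h1
    have hσ : 0 < σ := by
      rcases hσ0.eq_or_lt with h1 | h1
      · exfalso
        rw [hΔ, ← h1] at hΔpos
        nlinarith [sq_nonneg β]
      · exact h1
    have hsq : 0 < Real.sqrt Δ := Real.sqrt_pos.mpr hΔpos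
    refine ⟨fun x => Real.arctan ((σ * x + β / 2) / Real.sqrt Δ), ?_, ?_, ?_, ?_⟩
    · exact (Real.continuous_arctan.comp (by fun_prop)).continuousOn
    · intro x _ x' _ hxx
      apply Real.arctan_strictMono.monotone
      apply div_le_div_of_nonneg_right _ hsq.le
      nlinarith
    · have h1 := Real.arctan_lt_pi_div_two ((σ * b + β / 2) / Real.sqrt Δ)
      have h2 := Real.neg_pi_div_two_lt_arctan ((σ * a + β / 2) / Real.sqrt Δ)
      have h3 := Real.pi_le_four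
      show Real.arctan ((σ * b + β / 2) / Real.sqrt Δ) - Real.arctan ((σ * a + β / 2) / Real.sqrt Δ) ≤ 4
      linarith
    · intro w hw
      refine glue _ w ?_
      intro i hi x hx x' hx' hxx
      have h1 := hinc i hi w hw x hx x' hx' hxx
      have gp := hgpos x (hmem i hi x hx)
      have gp' := hgpos x' (hmem i hi x' hx')
      have h2 := angle_ineq σ β κ x x' Δ (2 * C1) _ _ hΔ hΔpos hσ hxx gp gp' (by positivity)
        (hgl x (hmem i hi x hx)) (hgl x' (hmem i hi x' hx'))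
      set G := 1 - ∑ v ∈ F, c x v with hG
      set G' := 1 - ∑ v ∈ F, c x' v with hG'
      show |c x' w / G' - c x w / G| ≤ K * (Real.arctan ((σ * x' + β / 2) / Real.sqrt Δ) -
        Real.arctan ((σ * x + β / 2) / Real.sqrt Δ))
      set Z := Real.arctan ((σ * x' + β / 2) / Real.sqrt Δ) - Real.arctan ((σ * x + β / 2) / Real.sqrt Δ) with hZ
      have hZ0 : 0 ≤ Z := by
        have : (σ * x + β / 2) / Real.sqrt Δ ≤ (σ * x' + β / 2) / Real.sqrt Δ := by
          apply div_le_div_of_nonneg_right _ hsq.le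
          nlinarith
        have := Real.arctan_strictMono.monotone this
        rw [hZ]; linarith
      have h3 : |c x' w / G' - c x w / G| * (G * G') ≤ (2 * K0 * (2 * C1) * Z) * (G * G') := by
        calc |c x' w / G' - c x w / G| * (G * G') ≤ 2 * K0 * Real.sqrt Δ * (x' - x) := h1
          _ = 2 * K0 * (Real.sqrt Δ * (x' - x)) := by ring
          _ ≤ 2 * K0 * (2 * C1 * G * G' * Z) := mul_le_mul_of_nonneg_left h2 (by positivity)
          _ = (2 * K0 * (2 * C1) * Z) * (G * G') := by ring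
      have h4 := le_of_mul_le_mul_right h3 (mul_pos gp gp')
      exact h4.trans (mul_le_mul_of_nonneg_right hKge hZ0)

end Pool.Agent.BP
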